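import Pool.Agent.Helper54.TreeModel

set_option autoImplicit false
set_option linter.unusedSectionVars false

open Filter Topology

namespace Pool.Agent.Helper54

variable {T : Type} [PartialOrder T] [OrderBot T] {X : Type} [NormedAddCommGroup X]
  [NormedSpace ℝ X] (M : TreeModel T X)

namespace TreeModel

theorem exists_span_approx (x : X) {ε : ℝ} (hε : 0 < ε) :
    ∃ (x' : X) (F : Finset T) (a : T → ℝ), ‖x - x'‖ < ε ∧ x' = ∑ i ∈ F, a i • M.e i := by
  have h := M.dense x
  rw [Metric.mem_closure_iff] at h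
  obtain ⟨x', hx', hd⟩ := h ε hε
  have hx'' : x' ∈ Submodule.span ℝ (Set.range M.e) := hx'
  rw [Finsupp.mem_span_range_iff_exists_finsupp] at hx''
  obtain ⟨c, hc⟩ := hx''
  refine ⟨x', c.support, c, by rwa [dist_eq_norm] at hd, ?_⟩
  rw [← hc]; rfl

open Classical in
theorem ev_sum (F : Finset T) (a : T → ℝ) (s : T) :
    M.ev s (∑ i ∈ F, a i • M.e i) = ∑ i ∈ F, if s ≤ i then a i else 0 := by
  rw [map_sum]
  apply Finset.sum_congr rfl
  intro i _
  rw [map_smul, smul_eq_mul]
  split_ifs with h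
  · rw [M.ev_e_le h, mul_one]
  · rw [M.ev_e_not_le h, mul_zero]

theorem ev_sum_congr (F : Finset T) (a : T → ℝ) (s s' : T) (h : ∀ i ∈ F, (s ≤ i ↔ s' ≤ i)) :
    M.ev s (∑ i ∈ F, a i • M.e i) = M.ev s' (∑ i ∈ F, a i • M.e i) := by
  classical
  rw [ev_sum, ev_sum]
  apply Finset.sum_congr rfl
  intro i hi
  by_cases h1 : s ≤ i
  · rw [if_pos h1, if_pos ((h i hi).mp h1)]
  · rw [if_neg h1, if_neg (fun h2 => h1 ((h i hi).mpr h2))]

theorem exists_le_of_ev_sum_ne (F : Finset T) (a : T → ℝ) (s : T)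
    (h : M.ev s (∑ i ∈ F, a i • M.e i) ≠ 0) : ∃ i ∈ F, s ≤ i := by
  classical
  by_contra hcon
  push Not at hcon
  apply h
  rw [ev_sum]
  apply Finset.sum_eq_zero
  intro i hi
  rw [if_neg (hcon i hi)]

theorem abs_ev_sub_le (x y : X) (s : T) : |M.ev s x| ≤ |M.ev s y| + ‖x - y‖ := by
  have h1 := M.ev_le (x - y) s
  rw [map_sub] at h1
  have h2 := abs_sub_abs_le_abs_sub (M.ev s x) (M.ev s y)
  linarith

theorem exists_cover (hT : TreeAx T) {t a : T} (h : t < a) : ∃ u, t ⋖ u ∧ u ≤ a := by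
  obtain ⟨u, ⟨hu1, hu2⟩, hmin⟩ := hT.wf.has_min {s | t < s ∧ s ≤ a} ⟨a, h, le_rfl⟩
  refine ⟨u, ⟨hu1, ?_⟩, hu2⟩
  intro s hs1 hs2
  exact hmin s ⟨hs1, hs2.le.trans hu2⟩ hs2

theorem cover_unique (hT : TreeAx T) {t u u' a : T} (h : t ⋖ u) (h' : t ⋖ u') (hu : u ≤ a)
    (hu' : u' ≤ a) : u = u' := by
  rcases hT.chain hu hu' with h3 | h3
  · rcases eq_or_lt_of_le h3 with h4 | h4
    · exact h4
    · exact absurd h4 (h'.2 h.lt)
  · rcases eq_or_lt_of_le h3 with h4 | h4
    · exact h4.symm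
    · exact absurd h4 (h.2 h'.lt)

/-- Only finitely many immediate successors carry a large value. -/
theorem finite_succ (hT : TreeAx T) (x : X) {ε : ℝ} (hε : 0 < ε) (t : T) :
    {u | t ⋖ u ∧ ε ≤ |M.ev u x|}.Finite := by
  obtain ⟨x', F, a, hd, hx'⟩ := M.exists_span_approx x hε
  have hsub : {u | t ⋖ u ∧ ε ≤ |M.ev u x|} ⊆ ⋃ i ∈ F, {u | t ⋖ u ∧ u ≤ i} := by
    rintro u ⟨hu1, hu2⟩
    have h1 := M.abs_ev_sub_le x x' u
    have h2 : M.ev u x' ≠ 0 := by
      intro h0
      rw [h0, abs_zero] at h1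
      linarith
    rw [hx'] at h2
    obtain ⟨i, hi, hui⟩ := M.exists_le_of_ev_sum_ne F a u h2
    simp only [Set.mem_iUnion]
    exact ⟨i, hi, hu1, hui⟩
  refine Set.Finite.subset ?_ hsub
  apply Set.Finite.biUnion F.finite_toSet
  intro i _
  apply Set.Subsingleton.finite
  rintro u ⟨hu1, hu2⟩ u' ⟨hu1', hu2'⟩
  exact cover_unique hT hu1 hu1' hu2 hu2'

/-- Only finitely many nodes have a large drop to all their immediate successors. -/
theorem finite_drop (hT : TreeAx T) (x : X) {ε : ℝ} (hε : 0 < ε) :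
    {t | ∀ u, t ⋖ u → |M.ev u x| + ε ≤ |M.ev t x|}.Finite := by
  have hε2 : 0 < ε / 2 := by positivity
  obtain ⟨x', F, a, hd, hx'⟩ := M.exists_span_approx x hε2
  let Br : T → T → Set T := fun i j => {t | t < i ∧ t < j ∧ ∀ s, t < s → s ≤ i → ¬ s ≤ j}
  have hBr : ∀ i j, (Br i j).Finite := by
    intro i j
    apply Set.Subsingleton.finite
    rintro t ⟨h1, h2, h3⟩ t' ⟨h1', h2', h3'⟩
    rcases hT.chain h1.le h1'.le with h4 | h4
    · rcases eq_or_lt_of_le h4 with h5 | h5
      · exact h5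
      · exact absurd h2'.le (h3 t' h5 h1'.le)
    · rcases eq_or_lt_of_le h4 with h5 | h5
      · exact h5.symm
      · exact absurd h2.le (h3' t h5 h1.le)
  have hsub : {t | ∀ u, t ⋖ u → |M.ev u x| + ε ≤ |M.ev t x|} ⊆
      (F : Set T) ∪ ⋃ i ∈ F, ⋃ j ∈ F, Br i j := by
    intro t ht
    have ht' : ∀ u, t ⋖ u → |M.ev u x| + ε ≤ |M.ev t x| := ht
    by_contra hcon
    simp only [Set.mem_union, Set.mem_iUnion, not_or, Finset.mem_coe] at hcon
    obtain ⟨hcF, hcB⟩ := hcon
    have hlt : ∀ u, t ⋖ u → |M.ev u x'| < |M.ev t x'| := by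
      intro u hu
      have h1 := ht' u hu
      have h2 := M.abs_ev_sub_le x x' t
      have h3 := M.abs_ev_sub_le x' x u
      rw [norm_sub_rev] at h3
      linarith
    obtain ⟨u0, hu0⟩ := (hT.inf t).nonempty
    have hne : M.ev t x' ≠ 0 := by
      intro h0
      have := hlt u0 hu0
      rw [h0, abs_zero] at this
      exact absurd this (not_lt_of_ge (abs_nonneg _))
    rw [hx'] at hne
    obtain ⟨i, hi, hti⟩ := M.exists_le_of_ev_sum_ne F a t hne
    have htlt : ∀ j ∈ F, t ≤ j → t < j := fun j hj h =>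
      lt_of_le_of_ne h (fun h' => hcF (h' ▸ hj))
    obtain ⟨u, hu, hui⟩ := exists_cover hT (htlt i hi hti)
    have heq : M.ev u x' = M.ev t x' := by
      rw [hx']
      apply M.ev_sum_congr
      intro j hj
      constructor
      · intro h; exact hu.le.trans h
      · intro h
        have h1 : t ∉ Br i j := fun h1 => hcB ⟨i, hi, j, hj, h1⟩
        have h2 : ¬ ∀ s, t < s → s ≤ i → ¬ s ≤ j := fun h2 =>
          h1 ⟨htlt i hi hti, htlt j hj h, h2⟩
        push Not at h2
        obtain ⟨s, hs1, hs2, hs3⟩ := h2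
        rcases hT.chain hui hs2 with h4 | h4
        · exact h4.trans hs3
        · rcases eq_or_lt_of_le h4 with h5 | h5
          · rw [← h5]; exact hs3
          · exact absurd h5 (hu.2 hs1)
    have := hlt u hu
    rw [heq] at this
    exact lt_irrefl _ this
  refine Set.Finite.subset ?_ hsub
  apply Set.Finite.union F.finite_toSet
  apply Set.Finite.biUnion F.finite_toSet
  intro i _
  apply Set.Finite.biUnion F.finite_toSet
  intro j _
  exact hBr i j

/-- Left continuity at every node different from the root. -/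
theorem left_cont (hT : TreeAx T) (x : X) {ε : ℝ} (hε : 0 < ε) {b : T} (hb : b ≠ ⊥) :
    ∃ r, r < b ∧ ∀ s, r < s → s ≤ b → |M.ev s x - M.ev b x| < ε := by
  classical
  have hε2 : 0 < ε / 2 := by positivity
  obtain ⟨x', F, a, hd, hx'⟩ := M.exists_span_approx x hε2
  have hF : ∀ F : Finset T, ∃ r, r < b ∧ ∀ s, r < s → s ≤ b → ∀ i ∈ F, (s ≤ i ↔ b ≤ i) := by
    intro F
    induction F using Finset.induction_on with
    | empty => exact ⟨⊥, bot_lt_iff_ne_bot.mpr hb, by simp⟩
    | insert i F _ ih =>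
      obtain ⟨r1, hr1, h1⟩ := ih
      obtain ⟨r2, hr2, h2⟩ : ∃ r, r < b ∧ ∀ s, r < s → s ≤ b → (s ≤ i ↔ b ≤ i) := by
        by_cases hbi : b ≤ i
        · exact ⟨⊥, bot_lt_iff_ne_bot.mpr hb, fun s _ hs => ⟨fun _ => hbi, fun _ => hs.trans hbi⟩⟩
        · have h3 : ¬ ∀ r, r < b → ∃ s, r < s ∧ s ≤ b ∧ s ≤ i := fun h3 => hbi (hT.lim hb h3)
          push Not at h3
          obtain ⟨r, hr, h4⟩ := h3
          exact ⟨r, hr, fun s hs1 hs2 => ⟨fun h5 => absurd h5 (h4 s hs1 hs2),
            fun h5 => absurd h5 hbi⟩⟩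
      rcases hT.chain hr1.le hr2.le with h3 | h3
      · refine ⟨r2, hr2, fun s hs1 hs2 j hj => ?_⟩
        rcases Finset.mem_insert.mp hj with h4 | h4
        · rw [h4]; exact h2 s hs1 hs2
        · exact h1 s (lt_of_le_of_lt h3 hs1) hs2 j h4
      · refine ⟨r1, hr1, fun s hs1 hs2 j hj => ?_⟩
        rcases Finset.mem_insert.mp hj with h4 | h4
        · rw [h4]; exact h2 s (lt_of_le_of_lt h3 hs1) hs2
        · exact h1 s hs1 hs2 j h4
  obtain ⟨r, hr, h⟩ := hF F
  refine ⟨r, hr, fun s hs1 hs2 => ?_⟩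
  have h1 : M.ev s x' = M.ev b x' := by
    rw [hx']
    exact M.ev_sum_congr F a s b (h s hs1 hs2)
  have h2 := M.ev_le (x - x') s
  have h3 := M.ev_le (x - x') b
  rw [map_sub] at h2 h3
  have h4 : M.ev s x - M.ev b x = (M.ev s x - M.ev s x') - (M.ev b x - M.ev b x') := by
    rw [h1]; ring
  rw [h4]
  have h5 := abs_sub (M.ev s x - M.ev s x') (M.ev b x - M.ev b x')
  linarith

/-- The norm is attained at a node from which all immediate successors drop. -/
theorem exists_max_node (hT : TreeAx T) (x : X) (hx : x ≠ 0) :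
    ∃ t, |M.ev t x| = ‖x‖ ∧ ∀ u, t ⋖ u → |M.ev u x| < ‖x‖ := by
  classical
  set R : ℝ := ‖x‖ with hR
  have hR0 : 0 < R := norm_pos_iff.mpr hx
  have hR4 : 0 < R / 4 := by positivity
  obtain ⟨x', F, a, hd, hx'⟩ := M.exists_span_approx x hR4
  have hD : ∀ s, R / 2 < |M.ev s x| → ∃ i ∈ F, s ≤ i := by
    intro s hs
    have h1 := M.abs_ev_sub_le x x' s
    have h2 : M.ev s x' ≠ 0 := by
      intro h0
      rw [h0, abs_zero] at h1
      linarith
    rw [hx'] at h2
    exact M.exists_le_of_ev_sum_ne F a s h2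
  have hsup : ∀ ε > 0, ∃ s, R - ε < |M.ev s x| := by
    intro ε hε
    by_contra hcon
    push Not at hcon
    by_cases h1 : 0 ≤ R - ε
    · have := M.norm_le x (R - ε) h1 hcon
      linarith
    · push Not at h1
      have := hcon ⊥
      linarith [abs_nonneg (M.ev ⊥ x)]
  -- near-maximal values below some i ∈ F
  obtain ⟨i0, hi0, hP0⟩ : ∃ i ∈ F, ∀ ε > 0, ∃ s, s ≤ i ∧ R - ε < |M.ev s x| := by
    by_contra hcon
    push Not at hcon
    have h1 : ∀ F' : Finset T, F' ⊆ F → ∃ ε > 0, ∀ i ∈ F', ∀ s, s ≤ i → |M.ev s x| ≤ R - ε := by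
      intro F'
      induction F' using Finset.induction_on with
      | empty => intro _; exact ⟨1, one_pos, by simp⟩
      | insert i F' _ ih =>
        intro hsub
        obtain ⟨ε1, hε1, h2⟩ := ih (fun j hj => hsub (Finset.mem_insert_of_mem hj))
        obtain ⟨ε2, hε2, h3⟩ := hcon i (hsub (Finset.mem_insert_self _ _))
        refine ⟨min ε1 ε2, lt_min hε1 hε2, fun j hj s hs => ?_⟩
        rcases Finset.mem_insert.mp hj with h4 | h4
        · rw [h4] at hs
          have := h3 s hs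
          linarith [min_le_right ε1 ε2]
        · have := h2 j h4 s hs
          linarith [min_le_left ε1 ε2]
    obtain ⟨ε, hε, h2⟩ := h1 F (le_refl _)
    obtain ⟨s, hs⟩ := hsup (min ε (R / 2)) (lt_min hε (by positivity))
    obtain ⟨i, hi, hsi⟩ := hD s (by linarith [min_le_right ε (R / 2)])
    have := h2 i hi s hsi
    linarith [min_le_left ε (R / 2)]
  -- attainment
  obtain ⟨z0, hz0⟩ : ∃ z, |M.ev z x| = R := by
    obtain ⟨b, ⟨hb1, hb2⟩, hmin⟩ := hT.wf.has_min
      {b | b ≤ i0 ∧ ∀ ε > 0, ∃ s, s ≤ b ∧ R - ε < |M.ev s x|} ⟨i0, le_rfl, hP0⟩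
    refine ⟨b, le_antisymm (M.ev_le x b) ?_⟩
    by_contra hcon
    push Not at hcon
    by_cases hbot : b = ⊥
    · obtain ⟨s, hs1, hs2⟩ := hb2 (R - |M.ev b x|) (by linarith)
      rw [hbot, le_bot_iff] at hs1
      rw [hs1, ← hbot] at hs2
      linarith
    · set ε : ℝ := (R - |M.ev b x|) / 2 with hε
      have hε0 : 0 < ε := by rw [hε]; linarith
      obtain ⟨r, hr, hrs⟩ := M.left_cont hT x hε0 hbot
      apply hmin r ⟨hr.le.trans hb1, ?_⟩ hr
      intro ε' hε'
      obtain ⟨s, hs1, hs2⟩ := hb2 (min ε ε') (lt_min hε0 hε')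
      refine ⟨s, ?_, by linarith [min_le_right ε ε']⟩
      rcases hT.chain hs1 hr.le with h1 | h1
      · exact h1
      · rcases eq_or_lt_of_le h1 with h2 | h2
        · exact h2.ge
        · exfalso
          have h3 := hrs s h2 hs1
          have h4 := abs_sub_abs_le_abs_sub (M.ev s x) (M.ev b x)
          have h5 := min_le_left ε ε'
          linarith
  -- choose z with the minimal number of end points above
  let A : T → Finset T := fun z => F.filter (fun i => z ≤ i)
  let Z : Set T := {z | |M.ev z x| = R}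
  obtain ⟨z, hzZ, hzmin⟩ : ∃ z ∈ Z, ∀ z' ∈ Z, (A z).card ≤ (A z').card := by
    obtain ⟨n, ⟨z, hz, hzn⟩, hmin⟩ := WellFounded.has_min (wellFounded_lt (α := ℕ))
      {n | ∃ z ∈ Z, (A z).card = n} ⟨_, z0, hz0, rfl⟩
    refine ⟨z, hz, fun z' hz' => ?_⟩
    rw [hzn]
    exact not_lt.mp (hmin _ ⟨z', hz', rfl⟩)
  have hzR : |M.ev z x| = R := hzZ
  obtain ⟨i, hi, hzi⟩ := hD z (by rw [hzR]; linarith)
  -- largest element of Z below i
  obtain ⟨b, ⟨hb1, hb2⟩, hmin⟩ := hT.wf.has_min
    {b | b ≤ i ∧ ∀ s ∈ Z, s ≤ i → s ≤ b} ⟨i, le_rfl, fun s _ h => h⟩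
  have hzb : z ≤ b := hb2 z hzZ hzi
  have hbZ : |M.ev b x| = R := by
    by_contra hne
    have hlt : |M.ev b x| < R := lt_of_le_of_ne (M.ev_le x b) hne
    by_cases hbot : b = ⊥
    · rw [hbot, le_bot_iff] at hzb
      rw [hbot, ← hzb] at hne
      exact hne hzR
    · obtain ⟨r, hr, hrs⟩ := M.left_cont hT x (sub_pos.mpr hlt) hbot
      apply hmin r ⟨hr.le.trans hb1, ?_⟩ hr
      intro s hs hsi
      have hsb := hb2 s hs hsi
      rcases hT.chain hsb hr.le with h1 | h1
      · exact h1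
      · rcases eq_or_lt_of_le h1 with h2 | h2
        · exact h2.ge
        · exfalso
          have h3 := hrs s h2 hsb
          have h4 := abs_sub_abs_le_abs_sub (M.ev s x) (M.ev b x)
          have h5 : |M.ev s x| = R := hs
          linarith
  refine ⟨b, hbZ, fun u hu => lt_of_le_of_ne (M.ev_le x u) (fun huR => ?_)⟩
  have hsubA : A u ⊆ A z := by
    intro j hj
    rw [Finset.mem_filter] at hj ⊢
    exact ⟨hj.1, hzb.trans (hu.le.trans hj.2)⟩
  have hAeq : A u = A z := Finset.eq_of_subset_of_card_le hsubA (hzmin u huR)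
  have hiu : i ∈ A u := by
    rw [hAeq]; exact Finset.mem_filter.mpr ⟨hi, hzi⟩
  have hui : u ≤ i := (Finset.mem_filter.mp hiu).2
  exact absurd (hb2 u huR hui) (not_le_of_gt hu.lt)

/-- The larger of half the value at `t` and the supremum of the values at the immediate
successors of `t`. -/
noncomputable def mm (t : T) (x : X) : ℝ :=
  max (|M.ev t x| / 2) (⨆ u : {u // t ⋖ u}, |M.ev u.1 x|)

/-- The local term. -/
noncomputable def G (t : T) (x : X) : ℝ := 2 * |M.ev t x| - M.mm t x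

/-- The LFC gauge. -/
noncomputable def Phi (x : X) : ℝ := ⨆ t, M.G t x

theorem bddAbove_succ (t : T) (x : X) :
    BddAbove (Set.range (fun u : {u // t ⋖ u} => |M.ev u.1 x|)) :=
  ⟨‖x‖, by rintro _ ⟨u, rfl⟩; exact M.ev_le x _⟩

theorem half_le_mm (t : T) (x : X) : |M.ev t x| / 2 ≤ M.mm t x := le_max_left _ _

theorem succ_le_mm {t u : T} (h : t ⋖ u) (x : X) : |M.ev u x| ≤ M.mm t x :=
  (le_ciSup (M.bddAbove_succ t x) ⟨u, h⟩).trans (le_max_right _ _)

theorem mm_le (hT : TreeAx T) {t : T} {x : X} {r : ℝ} (h1 : |M.ev t x| / 2 ≤ r)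
    (h2 : ∀ u, t ⋖ u → |M.ev u x| ≤ r) : M.mm t x ≤ r := by
  obtain ⟨u, hu⟩ := (hT.inf t).nonempty
  haveI : Nonempty {u // t ⋖ u} := ⟨⟨u, hu⟩⟩
  exact max_le h1 (ciSup_le (fun u => h2 u.1 u.2))

theorem mm_lip (hT : TreeAx T) (t : T) (x y : X) : M.mm t x ≤ M.mm t y + ‖x - y‖ := by
  apply M.mm_le hT
  · have h1 := M.abs_ev_sub_le x y t
    have h2 := M.half_le_mm t y
    have h3 := norm_nonneg (x - y)
    linarith
  · intro u hu
    have h1 := M.abs_ev_sub_le x y u
    have h2 := M.succ_le_mm hu y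
    linarith

theorem G_lip (hT : TreeAx T) (t : T) (x y : X) : M.G t x ≤ M.G t y + 3 * ‖x - y‖ := by
  have h1 := M.abs_ev_sub_le x y t
  have h2 := M.mm_lip hT t y x
  rw [norm_sub_rev] at h2
  simp only [G]
  linarith

theorem G_le (t : T) (x : X) : M.G t x ≤ 3 / 2 * |M.ev t x| := by
  have := M.half_le_mm t x
  simp only [G]
  linarith

theorem bddAbove_G (x : X) : BddAbove (Set.range (fun t => M.G t x)) := by
  refine ⟨3 / 2 * ‖x‖, ?_⟩
  rintro _ ⟨t, rfl⟩
  have h1 := M.G_le t x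
  have h2 := M.ev_le x t
  simp only
  linarith

theorem G_le_Phi (t : T) (x : X) : M.G t x ≤ M.Phi x := le_ciSup (M.bddAbove_G x) t

theorem Phi_lip (hT : TreeAx T) (x y : X) : M.Phi x ≤ M.Phi y + 3 * ‖x - y‖ := by
  apply ciSup_le
  intro t
  have h1 := M.G_lip hT t x y
  have h2 := M.G_le_Phi t y
  linarith

theorem Phi_continuous (hT : TreeAx T) : Continuous M.Phi := by
  rw [Metric.continuous_iff]
  intro x ε hε
  refine ⟨ε / 3, by positivity, fun y hy => ?_⟩
  rw [dist_eq_norm] at hy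
  rw [Real.dist_eq, abs_lt]
  have h1 := M.Phi_lip hT y x
  have h2 := M.Phi_lip hT x y
  rw [norm_sub_rev] at h2
  constructor <;> linarith

theorem norm_le_Phi (hT : TreeAx T) (x : X) : ‖x‖ ≤ M.Phi x := by
  by_cases hx : x = 0
  · rw [hx, norm_zero]
    refine le_trans ?_ (M.G_le_Phi ⊥ 0)
    have : M.mm ⊥ (0 : X) ≤ 0 := by
      apply M.mm_le hT
      · simp
      · intro u _; simp
    simp only [G, map_zero, abs_zero]
    linarith
  · obtain ⟨t, ht1, ht2⟩ := M.exists_max_node hT x hx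
    have h1 : M.mm t x ≤ ‖x‖ := by
      apply M.mm_le hT
      · rw [ht1]; linarith [norm_nonneg x]
      · intro u hu; exact (ht2 u hu).le
    have h2 := M.G_le_Phi t x
    simp only [G] at h2
    rw [ht1] at h2
    linarith

theorem Phi_zero (hT : TreeAx T) : M.Phi (0 : X) = 0 := by
  apply le_antisymm
  · apply ciSup_le
    intro t
    have := M.G_le t (0 : X)
    simpa using this
  · have := M.norm_le_Phi hT (0 : X)
    rwa [norm_zero] at this

/-- Near a nonzero point the gauge is determined by finitely many evaluations. -/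
theorem Phi_lfc (hT : TreeAx T) (x : X) (hx : x ≠ 0) :
    ∃ (O : Set X) (K : Finset T), IsOpen O ∧ x ∈ O ∧
      ∀ y ∈ O, ∀ y' ∈ O, (∀ s ∈ K, M.ev s y = M.ev s y') → M.Phi y = M.Phi y' := by
  classical
  obtain ⟨t0, ht1, ht2⟩ := M.exists_max_node hT x hx
  have hR0 : 0 < ‖x‖ := norm_pos_iff.mpr hx
  -- strict drop
  have hdrop : M.mm t0 x < ‖x‖ := by
    have hfin := M.finite_succ hT x (ε := ‖x‖ / 2) (by positivity) t0
    by_cases hne : {u | t0 ⋖ u ∧ ‖x‖ / 2 ≤ |M.ev u x|}.Nonempty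
    · obtain ⟨u, hu, humax⟩ := hfin.exists_maximalFor (fun u => |M.ev u x|) _ hne
      have hlt := ht2 u hu.1
      refine lt_of_le_of_lt (M.mm_le hT (r := |M.ev u x|) ?_ ?_) hlt
      · rw [ht1]; exact hu.2
      · intro w hw
        by_cases h1 : ‖x‖ / 2 ≤ |M.ev w x|
        · by_contra h2
          push Not at h2
          have h3 := humax (j := w) ⟨hw, h1⟩ h2.le
          simp only at h3
          linarith
        · push Not at h1
          linarith [hu.2]
    · have h1 : ∀ u, t0 ⋖ u → |M.ev u x| ≤ ‖x‖ / 2 := by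
        intro u hu
        by_contra h2
        push Not at h2
        exact hne ⟨u, hu, h2.le⟩
      refine lt_of_le_of_lt (M.mm_le hT (r := ‖x‖ / 2) (by rw [ht1]) h1) (by linarith)
  set ε : ℝ := ‖x‖ - M.mm t0 x with hε
  have hε0 : 0 < ε := by rw [hε]; linarith
  have hG0 : M.G t0 x = ‖x‖ + ε := by
    simp only [G]; rw [ht1, hε]; ring
  -- finite set of relevant nodes
  have hFfin : {t | ‖x‖ + ε / 2 ≤ M.G t x}.Finite := by
    refine Set.Finite.subset (M.finite_drop hT x (ε := ε / 2) (by positivity)) ?_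
    intro t ht u hu
    have ht' : ‖x‖ + ε / 2 ≤ M.G t x := ht
    have h1 := M.succ_le_mm hu x
    have h2 := M.ev_le x t
    simp only [G] at ht'
    linarith
  set F : Finset T := hFfin.toFinset with hF
  have hFmem : ∀ t, t ∈ F ↔ ‖x‖ + ε / 2 ≤ M.G t x := by
    intro t; rw [hF, Set.Finite.mem_toFinset]; rfl
  have hFpos : ∀ t ∈ F, 0 < |M.ev t x| := by
    intro t ht
    have h1 := (hFmem t).mp ht
    have h2 := M.G_le t x
    linarith
  let A : T → Finset T := fun t =>
    if h : 0 < |M.ev t x| then (M.finite_succ hT x (ε := |M.ev t x| / 4) (by positivity) t).toFinset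
    else ∅
  have hA : ∀ t ∈ F, ∀ u, t ⋖ u → u ∉ A t → |M.ev u x| < |M.ev t x| / 4 := by
    intro t ht u hu hnot
    by_contra hcon
    push Not at hcon
    apply hnot
    simp only [A]
    rw [dif_pos (hFpos t ht), Set.Finite.mem_toFinset]
    exact ⟨hu, hcon⟩
  -- radius
  obtain ⟨ρ, hρ0, hρ1, hρ2⟩ : ∃ ρ > 0, ρ ≤ ε / 16 ∧ ∀ t ∈ F, ρ ≤ |M.ev t x| / 16 := by
    have h1 : ∀ F' : Finset T, F' ⊆ F → ∃ ρ > 0, ρ ≤ ε / 16 ∧ ∀ t ∈ F', ρ ≤ |M.ev t x| / 16 := by
      intro F'
      induction F' using Finset.induction_on with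
      | empty => intro _; exact ⟨ε / 16, by positivity, le_rfl, by simp⟩
      | insert t F' _ ih =>
        intro hsub
        obtain ⟨ρ, h2, h3, h4⟩ := ih (fun j hj => hsub (Finset.mem_insert_of_mem hj))
        have h5 := hFpos t (hsub (Finset.mem_insert_self _ _))
        refine ⟨min ρ (|M.ev t x| / 16), lt_min h2 (by positivity),
          (min_le_left _ _).trans h3, fun s hs => ?_⟩
        rcases Finset.mem_insert.mp hs with h6 | h6
        · rw [h6]; exact min_le_right _ _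
        · exact (min_le_left _ _).trans (h4 s h6)
    exact h1 F (le_refl _)
  refine ⟨Metric.ball x ρ, F ∪ F.biUnion A, Metric.isOpen_ball, Metric.mem_ball_self hρ0, ?_⟩
  -- one inequality suffices
  have hmain : ∀ y ∈ Metric.ball x ρ, ∀ y' ∈ Metric.ball x ρ,
      (∀ s ∈ F ∪ F.biUnion A, M.ev s y = M.ev s y') → M.Phi y ≤ M.Phi y' := by
    intro y hy y' hy' hK
    rw [Metric.mem_ball, dist_eq_norm] at hy hy'
    apply ciSup_le
    intro t
    by_cases ht : t ∈ F
    · refine le_trans ?_ (M.G_le_Phi t y')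
      have hty : M.ev t y = M.ev t y' := hK t (Finset.mem_union_left _ ht)
      have hmm : M.mm t y' ≤ M.mm t y := by
        apply M.mm_le hT
        · rw [← hty]; exact M.half_le_mm t y
        · intro u hu
          by_cases huA : u ∈ A t
          · rw [← hK u (Finset.mem_union_right _ (Finset.mem_biUnion.mpr ⟨t, ht, huA⟩))]
            exact M.succ_le_mm hu y
          · have h1 := hA t ht u hu huA
            have h2 := M.abs_ev_sub_le y' x u
            have h3 := M.abs_ev_sub_le x y t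
            rw [norm_sub_rev] at h3
            have h4 := hρ2 t ht
            have h5 := M.half_le_mm t y
            have h6 := hFpos t ht
            linarith
      simp only [G]
      rw [hty]
      linarith
    · have h1 : M.G t x < ‖x‖ + ε / 2 := by
        by_contra h2
        push Not at h2
        exact ht ((hFmem t).mpr h2)
      have h2 := M.G_lip hT t y x
      have h3 := M.G_lip hT t0 x y'
      rw [norm_sub_rev] at h3
      have h4 := M.G_le_Phi t0 y'
      rw [hG0] at h3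
      linarith
  intro y hy y' hy' hK
  exact le_antisymm (hmain y hy y' hy' hK) (hmain y' hy' y hy (fun s hs => (hK s hs).symm))

/-- The bump. -/
noncomputable def bump (x : X) : ℝ := max 0 (min 1 (2 - M.Phi x))

theorem bump_continuous (hT : TreeAx T) : Continuous M.bump := by
  have := M.Phi_continuous hT
  unfold bump
  fun_prop

theorem bump_zero (hT : TreeAx T) : M.bump (0 : X) = 1 := by
  unfold bump
  rw [M.Phi_zero hT]
  norm_num

theorem bump_eq_zero (hT : TreeAx T) {x : X} (hx : 2 ≤ ‖x‖) : M.bump x = 0 := by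
  unfold bump
  have h1 := M.norm_le_Phi hT x
  apply max_eq_left
  apply (min_le_right _ _).trans
  linarith

theorem bump_support_bounded (hT : TreeAx T) :
    Bornology.IsBounded (Function.support (M.bump : X → ℝ)) := by
  refine (Metric.isBounded_ball (x := (0 : X)) (r := 2)).subset ?_
  intro x hx
  rw [mem_ball_zero_iff]
  by_contra hcon
  push Not at hcon
  exact hx (M.bump_eq_zero hT hcon)

theorem bump_support_nonempty (hT : TreeAx T) :
    (Function.support (M.bump : X → ℝ)).Nonempty := by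
  refine ⟨0, ?_⟩
  rw [Function.mem_support, M.bump_zero hT]
  exact one_ne_zero

theorem bump_lfc (hT : TreeAx T) (x : X) :
    ∃ O : Set X, IsOpen O ∧ x ∈ O ∧ ∃ (n : ℕ) (φ : Fin n → X →L[ℝ] ℝ) (g : (Fin n → ℝ) → ℝ),
      ∀ y ∈ O, M.bump y = g (fun i => φ i y) := by
  classical
  by_cases hx : x = 0
  · refine ⟨{y | M.Phi y < 1}, isOpen_lt (M.Phi_continuous hT) continuous_const, ?_, 0,
      fun _ => 0, fun _ => 1, ?_⟩
    · show M.Phi x < 1
      rw [hx, M.Phi_zero hT]; norm_num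
    · intro y hy
      have hy' : M.Phi y < 1 := hy
      show max 0 (min 1 (2 - M.Phi y)) = 1
      rw [min_eq_left (by linarith), max_eq_right zero_le_one]
  · obtain ⟨O, K, hO, hxO, hfac⟩ := M.Phi_lfc hT x hx
    refine ⟨O, hO, hxO, K.card, fun i => M.ev (K.equivFin.symm i).1,
      fun v => if h : ∃ y ∈ O, (fun i => M.ev (K.equivFin.symm i).1 y) = v then
        M.bump h.choose else 0, ?_⟩
    intro y hy
    have hex : ∃ y' ∈ O, (fun i => M.ev (K.equivFin.symm i).1 y') =
        (fun i => M.ev (K.equivFin.symm i).1 y) := ⟨y, hy, rfl⟩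
    simp only
    rw [dif_pos hex]
    have h1 := hex.choose_spec
    have h2 : M.Phi y = M.Phi hex.choose := by
      apply hfac y hy _ h1.1
      intro s hs
      have h3 := congrFun h1.2 (K.equivFin ⟨s, hs⟩)
      simp only [Equiv.symm_apply_apply] at h3
      exact h3.symm
    unfold bump
    rw [h2]

end TreeModel

end Pool.Agent.Helper54
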