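import Pool.Agent.Helper54.TreeModel

set_option autoImplicit false
set_option linter.unusedSectionVars false

open Filter Topology Cardinal

namespace Pool.Agent.Helper54

/-- The first uncountable ordinal as a type. -/
abbrev Om : Type := (Ordinal.omega.{0} 1).ToType

theorem exists_gt_of_countable (s : Set Om) (hs : s.Countable) : ∃ b, ∀ a ∈ s, a < b := by
  rw [← not_isCofinal_iff]
  intro h
  have h1 := Order.cof_le h
  rw [Ordinal.cof_toType, Cardinal.cof_omega_one] at h1
  have h2 : #s ≤ ℵ₀ := Cardinal.le_aleph0_iff_set_countable.mpr hs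
  exact absurd (h1.trans h2) (not_le_of_gt Cardinal.aleph0_lt_aleph_one)

/-- Nodes of the tree: countable subsets of the first uncountable ordinal. -/
structure Node where
  carrier : Set Om
  countable : carrier.Countable

namespace Node

theorem ext' {A B : Node} (h : A.carrier = B.carrier) : A = B := by
  cases A; cases B; simp only at h; subst h; rfl

/-- End extension order. -/
instance : PartialOrder Node where
  le A B := A.carrier ⊆ B.carrier ∧ ∀ a ∈ A.carrier, ∀ b ∈ B.carrier, b ≤ a → b ∈ A.carrier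
  le_refl A := ⟨Set.Subset.rfl, fun _ _ _ hb _ => hb⟩
  le_trans A B C h1 h2 := ⟨h1.1.trans h2.1, fun a ha c hc hca =>
    h1.2 a ha c (h2.2 a (h1.1 ha) c hc hca) hca⟩
  le_antisymm A B h1 h2 := ext' (Set.Subset.antisymm h1.1 h2.1)

theorem le_def {A B : Node} : A ≤ B ↔ A.carrier ⊆ B.carrier ∧
    ∀ a ∈ A.carrier, ∀ b ∈ B.carrier, b ≤ a → b ∈ A.carrier := Iff.rfl

instance : OrderBot Node where
  bot := ⟨∅, Set.countable_empty⟩
  bot_le A := ⟨Set.empty_subset _, fun a ha => absurd ha (Set.notMem_empty a)⟩

theorem bot_carrier : (⊥ : Node).carrier = ∅ := rfl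

theorem exists_of_lt {A B : Node} (h : A < B) : ∃ b ∈ B.carrier, b ∉ A.carrier := by
  by_contra hcon
  push Not at hcon
  have h1 : A = B := ext' (Set.Subset.antisymm h.le.1 hcon)
  exact absurd h1 h.ne

theorem chain {A B C : Node} (h1 : A ≤ C) (h2 : B ≤ C) : A ≤ B ∨ B ≤ A := by
  by_cases h : A.carrier ⊆ B.carrier
  · left
    exact ⟨h, fun a ha b hb hba => h1.2 a ha b (h2.1 hb) hba⟩
  · right
    obtain ⟨a, ha, haB⟩ := Set.not_subset.mp h
    refine ⟨fun b hb => ?_, fun b hb x hx hxb => h2.2 b hb x (h1.1 hx) hxb⟩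
    rcases le_total b a with h3 | h3
    · exact h1.2 a ha b (h2.1 hb) h3
    · exact absurd (h2.2 b hb a (h1.1 ha) h3) haB

theorem wf : WellFounded ((· < ·) : Node → Node → Prop) := by
  rw [RelEmbedding.wellFounded_iff_isEmpty]
  constructor
  intro f
  have hlt : ∀ n, f (n + 1) < f n := fun n => f.map_rel_iff.mpr (Nat.lt_succ_self n)
  choose g hg1 hg2 using fun n => exists_of_lt (hlt n)
  have hanti : ∀ n, g (n + 1) < g n := by
    intro n
    by_contra hcon
    push Not at hcon
    exact hg2 n ((hlt n).le.2 _ (hg1 (n + 1)) _ (hg1 n) hcon)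
  have h1 : WellFounded ((· < ·) : Om → Om → Prop) := wellFounded_lt
  rw [RelEmbedding.wellFounded_iff_isEmpty] at h1
  exact h1.false (RelEmbedding.natGT g hanti)

theorem lim {B A : Node} (hB : B ≠ ⊥) (h : ∀ R, R < B → ∃ S, R < S ∧ S ≤ B ∧ S ≤ A) : B ≤ A := by
  have key : ∀ b ∈ B.carrier, ∃ S : Node, b ∈ S.carrier ∧ S ≤ B ∧ S ≤ A := by
    intro b hb
    let R : Node := ⟨B.carrier ∩ Set.Iio b, B.countable.mono Set.inter_subset_left⟩
    have hR : R < B := by
      refine lt_of_le_of_ne ⟨Set.inter_subset_left, ?_⟩ ?_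
      · intro a ha c hc hca
        exact ⟨hc, lt_of_le_of_lt hca ha.2⟩
      · intro heq
        have : b ∈ R.carrier := by rw [heq]; exact hb
        exact absurd this.2 (lt_irrefl b)
    obtain ⟨S, hS1, hS2, hS3⟩ := h R hR
    refine ⟨S, ?_, hS2, hS3⟩
    obtain ⟨c, hc1, hc2⟩ := exists_of_lt hS1
    have hcB : c ∈ B.carrier := hS2.1 hc1
    have hbc : b ≤ c := by
      by_contra hlt
      push Not at hlt
      exact hc2 ⟨hcB, hlt⟩
    exact hS2.2 c hc1 b hb hbc
  refine ⟨fun b hb => ?_, fun b hb a ha hab => ?_⟩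
  · obtain ⟨S, hS1, _, hS3⟩ := key b hb
    exact hS3.1 hS1
  · obtain ⟨S, hS1, hS2, hS3⟩ := key b hb
    exact hS2.1 (hS3.2 b hS1 a ha hab)

theorem seq (s : ℕ → Node) (hs : ∀ n, s n ≤ s (n + 1)) : ∃ B, ∀ n, s n ≤ B := by
  have hmono : Monotone s := monotone_nat_of_le_succ hs
  refine ⟨⟨⋃ n, (s n).carrier, Set.countable_iUnion (fun n => (s n).countable)⟩, fun n => ?_⟩
  refine ⟨Set.subset_iUnion (fun n => (s n).carrier) n, fun a ha b hb hba => ?_⟩
  obtain ⟨m, hm⟩ := Set.mem_iUnion.mp hb
  rcases le_total m n with h | h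
  · exact (hmono h).1 hm
  · exact (hmono h).2 a ha b hm hba

/-- Adding a strict upper bound. -/
def insertTop (A : Node) (β : Om) : Node := ⟨insert β A.carrier, A.countable.insert β⟩

theorem covBy_insertTop {A : Node} {β : Om} (hβ : ∀ a ∈ A.carrier, a < β) :
    A ⋖ A.insertTop β := by
  have hβA : β ∉ A.carrier := fun h => lt_irrefl _ (hβ β h)
  refine ⟨lt_of_le_of_ne ⟨Set.subset_insert _ _, ?_⟩ ?_, ?_⟩
  · intro a ha b hb hba
    rcases hb with h | h
    · rw [h] at hba
      exact absurd (hβ a ha) (not_lt_of_ge hba)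
    · exact h
  · intro heq
    apply hβA
    have : β ∈ (A.insertTop β).carrier := Set.mem_insert _ _
    rwa [← heq] at this
  · intro C hC1 hC2
    obtain ⟨c, hc1, hc2⟩ := exists_of_lt hC1
    have hcβ : c = β := by
      rcases hC2.le.1 hc1 with h | h
      · exact h
      · exact absurd h hc2
    apply hC2.ne
    apply ext'
    apply Set.Subset.antisymm hC2.le.1
    intro x hx
    rcases hx with h | h
    · rw [h, ← hcβ]; exact hc1
    · exact hC1.le.1 h

theorem inf (A : Node) : {U | A ⋖ U}.Infinite := by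
  have h1 : {β : Om | ∀ a ∈ A.carrier, a < β}.Infinite := by
    intro hfin
    obtain ⟨γ, hγ⟩ := exists_gt_of_countable (A.carrier ∪ {β : Om | ∀ a ∈ A.carrier, a < β})
      (A.countable.union hfin.countable)
    have h2 : γ ∈ {β : Om | ∀ a ∈ A.carrier, a < β} := fun a ha => hγ a (Or.inl ha)
    exact lt_irrefl _ (hγ γ (Or.inr h2))
  have hinj : Set.InjOn A.insertTop {β : Om | ∀ a ∈ A.carrier, a < β} := by
    intro β hβ β' hβ' heq
    have h2 : β ∈ (A.insertTop β').carrier := by
      rw [← heq]; exact Set.mem_insert _ _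
    rcases h2 with h | h
    · exact h
    · exact absurd (hβ β h) (lt_irrefl _)
  refine (h1.image hinj).mono ?_
  rintro _ ⟨β, hβ, rfl⟩
  exact covBy_insertTop hβ

theorem treeAx : TreeAx Node where
  chain := chain
  wf := wf
  lim := lim
  seq := seq
  inf := inf

instance : TopologicalSpace Node := ⊥

instance : DiscreteTopology Node := ⟨rfl⟩

end Node

open Classical in
/-- Indicator function of an initial segment. -/
noncomputable def ind (A : Node) : BoundedContinuousFunction Node ℝ :=
  BoundedContinuousFunction.ofNormedAddCommGroupDiscrete (fun B => if B ≤ A then (1 : ℝ) else 0) 1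
    (fun B => by
      split_ifs <;> norm_num)

open Classical in
theorem ind_apply (A B : Node) : ind A B = if B ≤ A then (1 : ℝ) else 0 := rfl

/-- The closed linear span of the indicator functions of initial segments. -/
noncomputable def treeSpace : Submodule ℝ (BoundedContinuousFunction Node ℝ) :=
  (Submodule.span ℝ (Set.range ind)).topologicalClosure

theorem ind_mem (A : Node) : ind A ∈ treeSpace :=
  Submodule.le_topologicalClosure _ (Submodule.subset_span ⟨A, rfl⟩)

instance : CompleteSpace treeSpace := by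
  unfold treeSpace
  infer_instance

/-- The model. -/
noncomputable def model : TreeModel Node treeSpace where
  ev A := (BoundedContinuousFunction.evalCLM ℝ A).comp treeSpace.subtypeL
  e A := ⟨ind A, ind_mem A⟩
  ev_e_le {s t} h := by
    show ind t s = 1
    rw [ind_apply, if_pos h]
  ev_e_not_le {s t} h := by
    show ind t s = 0
    rw [ind_apply, if_neg h]
  norm_le x C hC h := by
    show ‖(x : BoundedContinuousFunction Node ℝ)‖ ≤ C
    rw [BoundedContinuousFunction.norm_le hC]
    exact h
  ev_le x A := (x : BoundedContinuousFunction Node ℝ).norm_coe_le_norm A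
  dense x := by
    rw [Metric.mem_closure_iff]
    intro ε hε
    have hx : (x : BoundedContinuousFunction Node ℝ) ∈
        closure (Submodule.span ℝ (Set.range ind) : Set (BoundedContinuousFunction Node ℝ)) := x.2
    rw [Metric.mem_closure_iff] at hx
    obtain ⟨y, hy1, hy2⟩ := hx ε hε
    have hy3 : y ∈ Submodule.span ℝ (Set.range ind) := hy1
    have hy4 : y ∈ treeSpace := Submodule.le_topologicalClosure _ hy3
    refine ⟨⟨y, hy4⟩, ?_, hy2⟩
    rw [Finsupp.mem_span_range_iff_exists_finsupp] at hy3
    obtain ⟨c, hc⟩ := hy3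
    show (⟨y, hy4⟩ : treeSpace) ∈ Submodule.span ℝ (Set.range (fun A => (⟨ind A, ind_mem A⟩ : treeSpace)))
    rw [Finsupp.mem_span_range_iff_exists_finsupp]
    refine ⟨c, ?_⟩
    apply Subtype.ext
    refine Eq.trans ?_ hc
    simp only [Finsupp.sum]
    rw [AddSubmonoidClass.coe_finsetSum]
    rfl

theorem treeSpace_not_separable : ¬ TopologicalSpace.SeparableSpace treeSpace := by
  intro hsep
  obtain ⟨D, hD1, hD2⟩ := TopologicalSpace.exists_countable_dense treeSpace
  -- singletons of ordinals give a separated family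
  have hd : ∀ β : Om, ∃ d ∈ D, dist (model.e ⟨{β}, Set.countable_singleton β⟩) d < 1 / 2 := by
    intro β
    exact hD2.exists_dist_lt _ (by norm_num)
  choose d hd1 hd2 using hd
  have hinj : Function.Injective d := by
    intro β γ hβγ
    by_contra hne
    have h1 : dist (model.e ⟨{β}, Set.countable_singleton β⟩)
        (model.e ⟨{γ}, Set.countable_singleton γ⟩) < 1 := by
      have h2 := hd2 β
      have h3 := hd2 γ
      rw [← hβγ] at h3
      rw [dist_comm] at h3
      calc _ ≤ dist (model.e ⟨{β}, Set.countable_singleton β⟩) (d β) +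
            dist (d β) (model.e ⟨{γ}, Set.countable_singleton γ⟩) := dist_triangle _ _ _
        _ < 1 := by linarith
    replace h1 := (dist_eq_norm (model.e ⟨{β}, Set.countable_singleton β⟩)
        (model.e ⟨{γ}, Set.countable_singleton γ⟩)).symm.trans_lt h1
    have h2 := model.ev_le (model.e ⟨{β}, Set.countable_singleton β⟩ -
        model.e ⟨{γ}, Set.countable_singleton γ⟩) ⟨{β}, Set.countable_singleton β⟩
    have h3 : ¬ (⟨{β}, Set.countable_singleton β⟩ : Node) ≤ ⟨{γ}, Set.countable_singleton γ⟩ := by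
      intro hle
      have h4 : β ∈ ({γ} : Set Om) := hle.1 (Set.mem_singleton β)
      exact hne h4
    have h5 : (model.ev ⟨{β}, Set.countable_singleton β⟩)
        (model.e ⟨{β}, Set.countable_singleton β⟩ -
        model.e ⟨{γ}, Set.countable_singleton γ⟩) = 1 := by
      refine ((model.ev ⟨{β}, Set.countable_singleton β⟩).map_sub _ _).trans ?_
      rw [model.ev_e_le le_rfl, model.ev_e_not_le h3, sub_zero]
    rw [h5, abs_one] at h2
    linarith
  have hcount : Countable Om := by
    have hDc : Countable D := hD1.to_subtype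
    exact (show Function.Injective (fun β => (⟨d β, hd1 β⟩ : D)) from fun a b hab =>
      hinj (congrArg Subtype.val hab)).countable
  obtain ⟨b, hb⟩ := exists_gt_of_countable Set.univ Set.countable_univ
  exact lt_irrefl _ (hb b (Set.mem_univ b))

end Pool.Agent.Helper54
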