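import Pool.Agent.Helper54.Seq

set_option autoImplicit false
set_option linter.unusedSectionVars false

open Filter Topology

namespace Pool.Agent.Helper54

variable {T : Type} [PartialOrder T] [OrderBot T] {X : Type} [NormedAddCommGroup X]
  [NormedSpace ℝ X] (M : TreeModel T X) (N : Seminorm ℝ X)

namespace TreeModel

theorem summable_disjoint (h : X →L[ℝ] ℝ) (w : ℕ → X) (hw : ∀ n, ‖w n‖ ≤ 1)
    (hd : ∀ s i j, M.ev s (w i) ≠ 0 → M.ev s (w j) ≠ 0 → i = j) :
    Summable (fun n => |h (w n)|) := by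
  apply summable_of_sum_range_le (c := ‖h‖) (fun n => abs_nonneg _)
  intro K
  set ε : ℕ → ℝ := fun n => if 0 ≤ h (w n) then 1 else -1 with hε
  have hε1 : ∀ n, |ε n| = 1 := by
    intro n; simp only [hε]; split_ifs <;> norm_num
  have hε0 : ∀ n, ε n ≠ 0 := by
    intro n h0; have := hε1 n; rw [h0] at this; norm_num at this
  have h1 : ∀ n, |h (w n)| = h (ε n • w n) := by
    intro n
    rw [map_smul, smul_eq_mul]
    simp only [hε]
    split_ifs with h2
    · rw [abs_of_nonneg h2, one_mul]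
    · rw [abs_of_neg (lt_of_not_ge h2)]; ring
  have h2 : ‖∑ n ∈ Finset.range K, ε n • w n‖ ≤ 1 := by
    apply M.norm_sum_le_of_disjoint _ _ 1 zero_le_one
    · intro i _
      rw [norm_smul, Real.norm_eq_abs, hε1, one_mul]
      exact hw i
    · intro s i _ j _ hi hj
      rw [map_smul, smul_eq_mul] at hi hj
      exact hd s i j (right_ne_zero_of_mul hi) (right_ne_zero_of_mul hj)
  calc ∑ n ∈ Finset.range K, |h (w n)| = h (∑ n ∈ Finset.range K, ε n • w n) := by
        rw [map_sum]; exact Finset.sum_congr rfl (fun n _ => h1 n)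
    _ ≤ ‖h (∑ n ∈ Finset.range K, ε n • w n)‖ := Real.le_norm_self _
    _ ≤ ‖h‖ * ‖∑ n ∈ Finset.range K, ε n • w n‖ := h.le_opNorm _
    _ ≤ ‖h‖ * 1 := mul_le_mul_of_nonneg_left h2 (norm_nonneg _)
    _ = ‖h‖ := mul_one _

theorem telescoping_limit {H v : ℕ → ℝ} {a b A : ℝ} {n0 : ℕ} (hH : Tendsto H atTop (𝓝 a))
    (hv : Tendsto v atTop (𝓝 b)) (h : ∀ k, n0 ≤ k → H (k + 1) - H k ≤ A * (v (k + 1) - v k))
    {n : ℕ} (hn : n0 ≤ n) : a - H n ≤ A * (b - v n) := by
  have hanti : Antitone (fun k => H (k + n) - A * v (k + n)) := by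
    apply antitone_nat_of_succ_le
    intro k
    have h1 := h (k + n) (by omega)
    have h2 : k + 1 + n = k + n + 1 := by omega
    rw [h2]
    linarith
  have hlim : Tendsto (fun k => H (k + n) - A * v (k + n)) atTop (𝓝 (a - A * b)) :=
    ((tendsto_add_atTop_iff_nat n).mpr hH).sub (((tendsto_add_atTop_iff_nat n).mpr hv).const_mul A)
  have h3 := hanti.le_of_tendsto hlim 0
  simp only [zero_add] at h3
  linarith

include M in
theorem main_contra [CompleteSpace X] (hT : TreeAx T) {c C : ℝ} (hc : 0 < c) (hC : 0 < C)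
    (hN : ∀ x : X, c * ‖x‖ ≤ N x ∧ N x ≤ C * ‖x‖) :
    ∃ f y : X, y ≠ 0 ∧ ∀ j : ℕ, 1 ≤ j → ∀ h : X →L[ℝ] ℝ, (∀ x, h x ≤ N x) → h f = N f →
      h (f + (j : ℝ)⁻¹ • y) = N (f + (j : ℝ)⁻¹ • y) → False := by
  obtain ⟨S, hinv, hstep⟩ := M.exists_sequence N hT hc hC hN
  set v : ℕ → ℝ := fun n => M.ev (S n).t (S n).f with hv
  have hgood : ∀ n, M.Good N (S n).f (S n).t := fun n => M.good_of_inv N (hinv n)
  -- bound for the values
  have hvb : ∀ n m, n ≤ m → v m - v n ≤ 2 * ((1 / 4 : ℝ) ^ n - (1 / 4 : ℝ) ^ m) := by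
    intro n m hnm
    induction m, hnm using Nat.le_induction with
    | base => simp
    | succ m _ ih =>
      have h1 := (hstep m).2.2.1
      have h2 : (0 : ℝ) < (1 / 4 : ℝ) ^ m := by positivity
      have h3 : v (m + 1) - v m ≤ (1 / 4 : ℝ) ^ m := h1
      rw [pow_succ]
      linarith
  have hvb' : ∀ n m, n ≤ m → v m - v n ≤ 2 * (1 / 4 : ℝ) ^ n := by
    intro n m hnm
    have h1 := hvb n m hnm
    have h2 : (0 : ℝ) < (1 / 4 : ℝ) ^ m := by positivity
    linarith
  obtain ⟨⟨f, t⟩, hq1, hq2, hq3, hq4⟩ := M.exists_limit N hT (fun x => (hN x).2)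
    (fun n => ((S n).f, (S n).t)) hgood (fun n => (hstep n).1) (v 0 + 2)
    (fun n => by
      have := hvb' 0 n (Nat.zero_le n)
      simp only [pow_zero, mul_one] at this
      show v n ≤ v 0 + 2
      linarith)
  simp only at hq1 hq2 hq3 hq4
  have ht : ∀ n, (S n).t ≤ t := fun n => (hq2 n).1
  have htlt : ∀ n, (S n).t < (S (n + 1)).t := by
    intro n
    obtain ⟨h1, h2, _, _⟩ := hstep n
    refine lt_of_le_of_ne h1.1 ?_
    intro heq
    have h3 := h1.2.1 (S (n + 1)).t (by simp only; rw [heq]; exact lt_irrefl _)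
    simp only at h3
    rw [h3, ← heq] at h2
    exact lt_irrefl _ h2
  have htmono : ∀ n m, n ≤ m → (S n).t ≤ (S m).t := by
    intro n m hnm
    exact monotone_nat_of_le_succ (fun k => (htlt k).le) hnm
  have hvlt : ∀ n, v n < v (n + 1) := fun n => (hstep n).2.1
  have hvmono : StrictMono v := strictMono_nat_of_lt_succ hvlt
  set V : ℝ := M.ev t f with hV
  have hvlim : Tendsto v atTop (𝓝 V) := hq4
  have hvV : ∀ n, v n < V := by
    intro n
    exact lt_of_lt_of_le (hvlt n) (hvmono.monotone.ge_of_tendsto hvlim (n + 1))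
  set F : ℕ → X := fun n => M.ext (S n).f (S n).t t with hF
  have hFlim : Tendsto F atTop (𝓝 f) := hq3
  -- directions
  have hyval : ∀ n, M.ev (S n).t (S n).y = (1 / 2 : ℝ) ^ n := fun n => (hinv n).2.1
  have hysupp : ∀ n, M.SuppIn (S n).y (S n).t := fun n => (hinv n).1
  have hystep : ∀ n, (S (n + 1)).y = (S n).y + ((1 / 2 : ℝ) ^ (n + 1)) •
      (M.e (S (n + 1)).t - M.e (S n).t) := fun n => (hstep n).2.2.2
  set Y : ℕ → X := fun n => M.ext (S n).y (S n).t t with hY
  have hYeq : ∀ n, Y n = (S n).y + ((1 / 2 : ℝ) ^ n) • (M.e t - M.e (S n).t) := by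
    intro n; simp only [hY, TreeModel.ext]; rw [hyval n]
  have hYstep : ∀ n, Y (n + 1) - Y n = -(((1 / 2 : ℝ) ^ (n + 1)) • (M.e t - M.e (S n).t)) := by
    intro n
    rw [hYeq, hYeq, hystep, pow_succ]
    module
  have hYc : CauchySeq Y := by
    apply cauchySeq_of_le_geometric (1 / 2 : ℝ) (1 : ℝ) (by norm_num)
    intro n
    rw [dist_comm, dist_eq_norm, hYstep, norm_neg, norm_smul]
    have h1 := M.norm_e_sub_le (ht n)
    rw [Real.norm_of_nonneg (by positivity), pow_succ]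
    have h2 : (0 : ℝ) < (1 / 2 : ℝ) ^ n := by positivity
    nlinarith [norm_nonneg (M.e t - M.e (S n).t)]
  obtain ⟨y, hy⟩ := cauchySeq_tendsto_of_complete hYc
  -- y - y_n is above t_n
  have hyab0 : ∀ n m, n ≤ m → M.Above (S n).t ((S m).y - (S n).y) := by
    intro n m hnm
    induction m, hnm using Nat.le_induction with
    | base => rw [sub_self]; exact M.above_zero _
    | succ m hm ih =>
      have h1 : (S (m + 1)).y - (S n).y = ((S m).y - (S n).y) + ((1 / 2 : ℝ) ^ (m + 1)) •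
          (M.e (S (m + 1)).t - M.e (S m).t) := by rw [hystep m]; abel
      rw [h1]
      exact Above.add M ih (Above.smul M (Above.mono M (htmono n m hm)
        (M.above_e_sub hT (htlt m).le)) _)
  have hyab : ∀ n, M.Above (S n).t (y - (S n).y) := by
    intro n s hs
    have h1 : Tendsto (fun m => M.ev s (Y m - (S n).y)) atTop (𝓝 (M.ev s (y - (S n).y))) :=
      ((M.ev s).continuous.tendsto _).comp (hy.sub_const _)
    refine tendsto_nhds_unique h1 (Tendsto.congr' ?_ tendsto_const_nhds)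
    filter_upwards [eventually_ge_atTop n] with m hm
    have h2 : Y m - (S n).y = ((S m).y - (S n).y) + ((1 / 2 : ℝ) ^ m) • (M.e t - M.e (S m).t) := by
      rw [hYeq]; abel
    have h3 : M.Above (S n).t (Y m - (S n).y) := by
      rw [h2]
      exact Above.add M (hyab0 n m hm) (Above.smul M (Above.mono M (htmono n m hm)
        (M.above_e_sub hT (ht m))) _)
    exact (h3 s hs).symm
  have hy0 : y ≠ 0 := by
    intro h0
    have h1 := hyab 0 (S 0).t (lt_irrefl _)
    rw [h0, zero_sub, map_neg, hyval 0] at h1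
    norm_num at h1
  have hfab : ∀ n, M.Above (S n).t (f - (S n).f) := by
    intro n s hs
    rw [map_sub, sub_eq_zero]
    exact (hq2 n).2.1 s hs
  -- inequality (A)
  have hA : ∀ n, N (F n) + c / 4 * (V - v n) ≤ N f := by
    intro n
    have h1 := (hinv n).2.2.2 (f, t) hq1 (hq2 n) (by
      simp only
      exact (hvV n).ne')
    simp only at h1
    have h2 : N (F n) ≤ N (S n).f := (hgood n).2.1 t (ht n)
    have h3 : 0 < V - v n := sub_pos.mpr (hvV n)
    have h4 : (0 : ℝ) < c / 4 * (1 / 2 : ℝ) ^ n := by positivity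
    have h5 : 0 ≤ c / 4 * (1 / 2 : ℝ) ^ n * (V - v n) := by positivity
    have h6 : N (S n).f + (c / 4 + c / 4 * (1 / 2 : ℝ) ^ n) * (V - v n) < N f := h1
    nlinarith
  -- inequality (B)
  have hB : ∀ n j : ℕ, N (F n + (j : ℝ)⁻¹ • Y n) ≤ N (f + (j : ℝ)⁻¹ • y) := by
    intro n j
    have hg := (hinv n).2.2.1 j
    have h1 := hg.2.1 t (ht n)
    rw [M.ext_add_smul] at h1
    have h2 := hg.2.2 ((f - (S n).f) + (j : ℝ)⁻¹ • (y - (S n).y))
      (Above.add M (hfab n) (Above.smul M (hyab n) _))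
    have h3 : (S n).f + (j : ℝ)⁻¹ • (S n).y + ((f - (S n).f) + (j : ℝ)⁻¹ • (y - (S n).y)) =
        f + (j : ℝ)⁻¹ • y := by module
    rw [h3] at h2
    exact h1.trans h2
  refine ⟨f, y, hy0, ?_⟩
  intro j hj h hle hf hfy
  set s : ℝ := (j : ℝ)⁻¹ with hs
  have hs0 : 0 < s := by
    rw [hs]; exact inv_pos.mpr (by exact_mod_cast hj)
  set θ : ℕ → ℝ := fun n => h (M.e t - M.e (S n).t) with hθ
  set δ : ℕ → ℝ := fun n => v (n + 1) - v n with hδ
  have hδ0 : ∀ n, 0 < δ n := fun n => sub_pos.mpr (hvlt n)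
  set g : ℕ → X := fun n => (δ n)⁻¹ • ((S (n + 1)).f - (S n).f -
    v (n + 1) • (M.e (S (n + 1)).t - M.e (S n).t)) with hg
  -- supports
  have hgsupp : ∀ n s', M.ev s' (g n) ≠ 0 → (S n).t < s' ∧ s' ≤ (S (n + 1)).t := by
    intro n s' hne
    by_contra hcon
    apply hne
    obtain ⟨e1, e2, e3, e4⟩ := (hstep n).1
    simp only at e1 e2 e3 e4
    simp only [hg, map_smul, smul_eq_mul, map_sub]
    by_cases h1 : (S n).t < s'
    · have h2 : ¬ s' ≤ (S (n + 1)).t := fun h2 => hcon ⟨h1, h2⟩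
      rw [(hgood (n + 1)).1 s' h2, (hgood n).1 s' (not_le_of_gt h1), M.ev_e_not_le h2,
        M.ev_e_not_le (not_le_of_gt h1)]
      ring
    · have h3 := M.above_e_sub hT (htlt n).le s' h1
      rw [map_sub] at h3
      rw [e2 s' h1, h3]
      ring
  have hgnorm : ∀ n, ‖g n‖ ≤ 1 := by
    intro n
    apply M.norm_le _ _ zero_le_one
    intro s'
    by_cases hne : M.ev s' (g n) = 0
    · rw [hne, abs_zero]; exact zero_le_one
    · obtain ⟨h1, h2⟩ := hgsupp n s' hne
      obtain ⟨e1, e2, e3, e4⟩ := (hstep n).1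
      obtain ⟨c1, c2⟩ := e3 s' h1 h2
      simp only at c1 c2
      have h3 : M.ev s' (g n) = (δ n)⁻¹ * (M.ev s' (S (n + 1)).f - v (n + 1)) := by
        simp only [hg, map_smul, smul_eq_mul, map_sub]
        rw [(hgood n).1 s' (not_le_of_gt h1), M.ev_e_le h2, M.ev_e_not_le (not_le_of_gt h1)]
        ring
      rw [h3, abs_mul, abs_of_pos (inv_pos.mpr (hδ0 n)), inv_mul_le_iff₀ (hδ0 n), mul_one,
        abs_le]
      constructor
      · simp only [hδ, hv] at c1 ⊢; linarith
      · simp only [hδ, hv] at c2 ⊢; linarith [hvlt n]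
  have hdis : ∀ (P : ℕ → X), (∀ n s', M.ev s' (P n) ≠ 0 → (S n).t < s' ∧ s' ≤ (S (n + 1)).t) →
      ∀ s' i j, M.ev s' (P i) ≠ 0 → M.ev s' (P j) ≠ 0 → i = j := by
    intro P hP s' i j hi hj
    obtain ⟨a1, a2⟩ := hP i s' hi
    obtain ⟨b1, b2⟩ := hP j s' hj
    rcases lt_trichotomy i j with hlt | heq | hgt
    · exfalso
      exact absurd (a2.trans (htmono (i + 1) j hlt)) (not_le_of_gt b1)
    · exact heq
    · exfalso
      exact absurd (b2.trans (htmono (j + 1) i hgt)) (not_le_of_gt a1)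
  have hsum1 := M.summable_disjoint h g hgnorm (hdis g hgsupp)
  have ha0 : Tendsto (fun n => h (g n)) atTop (𝓝 0) := by
    rw [tendsto_zero_iff_abs_tendsto_zero]
    exact hsum1.tendsto_atTop_zero
  have hsum2 := M.summable_disjoint h (fun n => M.e (S (n + 1)).t - M.e (S n).t)
    (fun n => M.norm_e_sub_le (htlt n).le) (hdis _ (by
      intro n s' hne
      by_contra hcon
      apply hne
      by_cases h1 : (S n).t < s'
      · have h2 : ¬ s' ≤ (S (n + 1)).t := fun h2 => hcon ⟨h1, h2⟩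
        rw [map_sub, M.ev_e_not_le h2, M.ev_e_not_le (not_le_of_gt h1), sub_self]
      · exact M.above_e_sub hT (htlt n).le s' h1))
  have hθstep : ∀ n, θ n - θ (n + 1) = h (M.e (S (n + 1)).t - M.e (S n).t) := by
    intro n
    simp only [hθ, map_sub]; ring
  obtain ⟨Θ, hΘ⟩ : ∃ Θ, Tendsto θ atTop (𝓝 Θ) := by
    apply cauchySeq_tendsto_of_complete
    apply cauchySeq_of_summable_dist
    refine hsum2.congr ?_
    intro n
    rw [← hθstep, Real.dist_eq]
  -- increments
  have hFinc : ∀ n, h (F (n + 1)) - h (F n) = (h (g n) + θ n) * (v (n + 1) - v n) := by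
    intro n
    have h1 : F (n + 1) - F n = δ n • g n + δ n • (M.e t - M.e (S n).t) := by
      have h2 : δ n • g n = (S (n + 1)).f - (S n).f -
          v (n + 1) • (M.e (S (n + 1)).t - M.e (S n).t) := by
        simp only [hg]
        rw [smul_smul, mul_inv_cancel₀ (hδ0 n).ne', one_smul]
      rw [h2]
      simp only [hF, TreeModel.ext, hδ, hv]
      module
    have key : ∀ (a : ℝ) (x z : X), h (a • x + a • z) = a * h x + a * h z := by
      intro a x z
      rw [map_add, map_smul, map_smul, smul_eq_mul, smul_eq_mul]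
    rw [← map_sub, h1, key]
    simp only [hθ, hδ]
    ring
  have hYinc : ∀ n, h (Y (n + 1)) - h (Y n) = θ n * ((1 / 2 : ℝ) ^ (n + 1) - (1 / 2 : ℝ) ^ n) := by
    intro n
    rw [← map_sub, hYstep, map_neg, map_smul, smul_eq_mul]
    simp only [hθ]
    rw [pow_succ]; ring
  have hhF : Tendsto (fun n => h (F n)) atTop (𝓝 (h f)) := (h.continuous.tendsto f).comp hFlim
  have hhY : Tendsto (fun n => h (Y n)) atTop (𝓝 (h y)) := (h.continuous.tendsto y).comp hy
  have hsumlim : Tendsto (fun n => h (g n) + θ n) atTop (𝓝 Θ) := by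
    have := ha0.add hΘ
    rwa [zero_add] at this
  -- (A')
  have hA' : ∀ n, c / 4 * (V - v n) ≤ h f - h (F n) := by
    intro n
    have h1 := hA n
    have h2 := hle (F n)
    rw [hf]
    linarith
  have hB' : ∀ n, 0 ≤ (h f - h (F n)) + s * (h y - h (Y n)) := by
    intro n
    have h1 := hB n j
    have h2 := hle (F n + s • Y n)
    rw [← hs] at h1
    rw [← hfy] at h1
    have e1 : h (f + s • y) = h f + s * h y := by rw [map_add, map_smul, smul_eq_mul]
    have e2 : h (F n + s • Y n) = h (F n) + s * h (Y n) := by rw [map_add, map_smul, smul_eq_mul]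
    rw [e1] at h1
    rw [e2] at h2
    linarith
  have hΘge : c / 4 ≤ Θ := by
    by_contra hcon
    push Not at hcon
    set A : ℝ := (c / 4 + Θ) / 2 with hAdef
    have hA1 : Θ < A := by rw [hAdef]; linarith
    have hA2 : A < c / 4 := by rw [hAdef]; linarith
    obtain ⟨n0, hn0⟩ := eventually_atTop.mp (hsumlim.eventually_lt_const hA1)
    have h1 := telescoping_limit hhF hvlim (A := A) (n0 := n0) (fun k hk => by
      rw [hFinc]
      exact mul_le_mul_of_nonneg_right (hn0 k hk).le (hδ0 k).le) le_rfl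
    have h2 := hA' n0
    have h3 : 0 < V - v n0 := sub_pos.mpr (hvV n0)
    nlinarith
  -- final contradiction
  have hΘ8 : c / 8 < Θ := by linarith
  obtain ⟨n1, hn1⟩ := eventually_atTop.mp
    ((hsumlim.eventually_lt_const (lt_add_one Θ)).and (hΘ.eventually_const_lt hΘ8))
  have hpow : Tendsto (fun n : ℕ => (1 / 2 : ℝ) ^ n) atTop (𝓝 0) :=
    tendsto_pow_atTop_nhds_zero_of_lt_one (by norm_num) (by norm_num)
  have hfin : ∀ n, n1 ≤ n → s * (c / 8) ≤ 2 * (Θ + 1) * (1 / 2 : ℝ) ^ n := by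
    intro n hn
    have h1 := telescoping_limit hhF hvlim (A := Θ + 1) (n0 := n1) (fun k hk => by
      rw [hFinc]
      exact mul_le_mul_of_nonneg_right (hn1 k hk).1.le (hδ0 k).le) hn
    have h2 := telescoping_limit hhY hpow (A := c / 8) (n0 := n1) (fun k hk => by
      rw [hYinc]
      apply mul_le_mul_of_nonpos_right (hn1 k hk).2.le
      rw [pow_succ]
      have : (0 : ℝ) < (1 / 2 : ℝ) ^ k := by positivity
      linarith) hn
    have h3 : V - v n ≤ 2 * (1 / 4 : ℝ) ^ n := by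
      apply le_of_tendsto (hvlim.sub_const (v n))
      filter_upwards [eventually_ge_atTop n] with m hm
      exact hvb' n m hm
    have h4 := hB' n
    have hΘ1 : 0 < Θ + 1 := by linarith
    have h5 : (Θ + 1) * (V - v n) ≤ (Θ + 1) * (2 * (1 / 4 : ℝ) ^ n) :=
      mul_le_mul_of_nonneg_left h3 hΘ1.le
    have h6 : (1 / 4 : ℝ) ^ n = (1 / 2 : ℝ) ^ n * (1 / 2 : ℝ) ^ n := by
      rw [← mul_pow]; norm_num
    have h7 : (0 : ℝ) < (1 / 2 : ℝ) ^ n := by positivity
    have h8 : s * (h y - h (Y n)) ≤ s * (c / 8 * (0 - (1 / 2 : ℝ) ^ n)) :=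
      mul_le_mul_of_nonneg_left h2 hs0.le
    have h9 : s * (c / 8) * (1 / 2 : ℝ) ^ n ≤ (2 * (Θ + 1) * (1 / 2 : ℝ) ^ n) * (1 / 2 : ℝ) ^ n := by
      rw [h6] at h5
      linarith
    exact le_of_mul_le_mul_right h9 h7
  have hlim0 : Tendsto (fun n : ℕ => 2 * (Θ + 1) * (1 / 2 : ℝ) ^ n) atTop (𝓝 0) := by
    have := hpow.const_mul (2 * (Θ + 1))
    rwa [mul_zero] at this
  have h1 : s * (c / 8) ≤ 0 := by
    apply ge_of_tendsto hlim0
    filter_upwards [eventually_ge_atTop n1] with n hn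
    exact hfin n hn
  have h2 : 0 < s * (c / 8) := by positivity
  linarith

end TreeModel

end Pool.Agent.Helper54
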