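import Pool.Agent.Helper54.TreeModel

set_option autoImplicit false
set_option linter.unusedSectionVars false

open Filter Topology

namespace Pool.Agent.Helper54

variable {T : Type} [PartialOrder T] [OrderBot T] {X : Type} [NormedAddCommGroup X]
  [NormedSpace ℝ X] (M : TreeModel T X) (N : Seminorm ℝ X)

namespace TreeModel

/-- Good pairs: constant extensions do not increase the norm, and perturbations above do not
decrease it. -/
def Good (x : X) (t : T) : Prop :=
  M.SuppIn x t ∧ (∀ t', t ≤ t' → N (M.ext x t t') ≤ N x) ∧ (∀ y, M.Above t y → N x ≤ N (x + y))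

/-- If the norm of the constant extension to every immediate successor can be made `< m + ε` by a
perturbation above, then `N x ≤ m`. -/
theorem avg (hT : TreeAx T) {c C : ℝ} (hc : 0 < c)
    (hN : ∀ x : X, c * ‖x‖ ≤ N x ∧ N x ≤ C * ‖x‖) {x : X} {t : T} {m : ℝ}
    (h : ∀ u, t ⋖ u → ∀ ε > 0, ∃ y, M.Above u y ∧ N (M.ext x t u + y) < m + ε) : N x ≤ m := by
  classical
  have hC : 0 ≤ C ∨ ∀ x : X, ‖x‖ = 0 := by
    by_cases h0 : ∃ x : X, ‖x‖ ≠ 0
    · left
      obtain ⟨x, hx⟩ := h0
      have hx' : 0 < ‖x‖ := lt_of_le_of_ne (norm_nonneg _) (Ne.symm hx)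
      have := (hN x).1.trans (hN x).2
      have h2 : 0 < c * ‖x‖ := by positivity
      by_contra hneg
      push Not at hneg
      nlinarith
    · right
      push Not at h0
      exact h0
  apply le_of_forall_pos_le_add
  intro ε hε
  obtain ⟨u, hu⟩ : ∃ u : ℕ → T, Function.Injective u ∧ ∀ n, t ⋖ u n := by
    have hinf := hT.inf t
    refine ⟨fun n => (hinf.natEmbedding _ n).1, ?_, fun n => (hinf.natEmbedding _ n).2⟩
    intro a b hab
    exact (hinf.natEmbedding _).injective (Subtype.ext hab)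
  have hε2 : 0 < ε / 2 := by positivity
  choose y hy1 hy2 using fun n => h (u n) (hu.2 n) (ε / 2) hε2
  set w : ℕ → X := fun n => M.ev t x • (M.e (u n) - M.e t) + y n with hw
  have hz : ∀ n, N (x + w n) < m + ε / 2 := by
    intro n
    have := hy2 n
    have heq : M.ext x t (u n) + y n = x + w n := by
      simp only [ext, hw]; module
    rwa [heq] at this
  set R : ℝ := (m + ε / 2) / c + ‖x‖ with hR
  have hR' : ∀ n, ‖w n‖ ≤ R := by
    intro n
    have h1 : ‖x + w n‖ ≤ (m + ε / 2) / c := by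
      rw [le_div_iff₀ hc]
      have := (hN (x + w n)).1
      linarith [hz n]
    calc ‖w n‖ = ‖(x + w n) - x‖ := by congr 1; abel
      _ ≤ ‖x + w n‖ + ‖x‖ := norm_sub_le _ _
      _ ≤ R := by rw [hR]; linarith
  have hR0 : 0 ≤ R := (norm_nonneg _).trans (hR' 0)
  have hdisj : ∀ s, ∀ i j, M.ev s (w i) ≠ 0 → M.ev s (w j) ≠ 0 → i = j := by
    have hle : ∀ s i, M.ev s (w i) ≠ 0 → u i ≤ s := by
      intro s i hne
      by_contra hnot
      apply hne
      have h1 : M.ev s (y i) = 0 := hy1 i s (fun hlt => hnot hlt.le)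
      have h2 : M.ev s (M.e (u i) - M.e t) = 0 := by
        have hab := M.above_e_sub hT (hu.2 i).le
        by_cases hts : t < s
        · rw [map_sub, M.ev_e_not_le (not_le_of_gt hts), sub_zero]
          apply M.ev_e_not_le
          intro hsu
          have : s = u i := by
            rcases eq_or_lt_of_le hsu with h3 | h3
            · exact h3
            · exact absurd h3 ((hu.2 i).2 hts)
          exact hnot this.ge
        · exact hab s hts
      simp only [hw, map_add, map_smul, smul_eq_mul, h1, h2]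
      ring
    intro s i j hi hj
    have h1 := hle s i hi
    have h2 := hle s j hj
    apply hu.1
    rcases hT.chain h1 h2 with h3 | h3
    · rcases eq_or_lt_of_le h3 with h4 | h4
      · exact h4
      · exact absurd h4 ((hu.2 j).2 (hu.2 i).lt)
    · rcases eq_or_lt_of_le h3 with h4 | h4
      · exact h4.symm
      · exact absurd h4 ((hu.2 i).2 (hu.2 j).lt)
  have hmain : ∀ k : ℕ, (k : ℝ) * N x ≤ k * (m + ε / 2) + |C| * R := by
    intro k
    have hsum : ‖∑ i ∈ Finset.range k, w i‖ ≤ R :=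
      M.norm_sum_le_of_disjoint _ _ R hR0 (fun i _ => hR' i) (fun s i _ j _ => hdisj s i j)
    have h1 : (k : ℝ) • x = ∑ i ∈ Finset.range k, (x + w i) - ∑ i ∈ Finset.range k, w i := by
      rw [Finset.sum_add_distrib]
      simp [Nat.cast_smul_eq_nsmul]
    have h2 : N ((k : ℝ) • x) = k * N x := by
      rw [map_smul_eq_mul]; simp
    have h3 : N (∑ i ∈ Finset.range k, (x + w i)) ≤ k * (m + ε / 2) := by
      have h4 : N (∑ i ∈ Finset.range k, (x + w i)) ≤ ∑ i ∈ Finset.range k, N (x + w i) :=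
        Finset.le_sum_of_subadditive N (map_zero N).le (map_add_le_add N) _ _
      refine h4.trans ?_
      calc ∑ i ∈ Finset.range k, N (x + w i) ≤ ∑ i ∈ Finset.range k, (m + ε / 2) :=
            Finset.sum_le_sum (fun i _ => (hz i).le)
        _ = k * (m + ε / 2) := by simp; ring
    have h5 : N (∑ i ∈ Finset.range k, w i) ≤ |C| * R := by
      refine (hN _).2.trans ?_
      exact mul_le_mul (le_abs_self C) hsum (norm_nonneg _) (abs_nonneg C)
    rw [← h2, h1]
    have h6 := map_sub_le_add N (∑ i ∈ Finset.range k, (x + w i)) (∑ i ∈ Finset.range k, w i)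
    linarith
  by_contra hcon
  push Not at hcon
  -- N x > m + ε
  obtain ⟨k, hk⟩ := exists_nat_gt (|C| * R / (ε / 2))
  have h1 := hmain k
  have h2 : |C| * R < k * (ε / 2) := by
    rwa [div_lt_iff₀ hε2] at hk
  have h3 : 0 ≤ (k : ℝ) := Nat.cast_nonneg k
  nlinarith

theorem exists_good (hT : TreeAx T) {c C : ℝ} (hc : 0 < c)
    (hN : ∀ x : X, c * ‖x‖ ≤ N x ∧ N x ≤ C * ‖x‖) {x : X} {t : T} (hx : M.SuppIn x t) :
    ∃ t', t ≤ t' ∧ M.Good N (M.ext x t t') t' := by
  classical
  let μ : T → ℝ := fun t' => sInf ((fun y => N (M.ext x t t' + y)) '' {y | M.Above t' y})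
  have hbdd : ∀ t', BddBelow ((fun y => N (M.ext x t t' + y)) '' {y | M.Above t' y}) := by
    intro t'
    refine ⟨0, ?_⟩
    rintro _ ⟨y, _, rfl⟩
    exact apply_nonneg N _
  have hne : ∀ t', ((fun y => N (M.ext x t t' + y)) '' {y | M.Above t' y}).Nonempty := by
    intro t'
    exact ⟨_, 0, M.above_zero t', rfl⟩
  have hμle : ∀ t' y, M.Above t' y → μ t' ≤ N (M.ext x t t' + y) := by
    intro t' y hy
    exact csInf_le (hbdd t') ⟨y, hy, rfl⟩
  have hμmono : ∀ t' t'', t' ≤ t'' → μ t' ≤ μ t'' := by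
    intro t' t'' h
    apply le_csInf (hne t'')
    rintro _ ⟨y, hy, rfl⟩
    have h1 : M.Above t' (M.ev t x • (M.e t'' - M.e t') + y) :=
      Above.add M (Above.smul M (M.above_e_sub hT h) _) (Above.mono M h hy)
    have h2 := hμle t' _ h1
    have h3 : M.ext x t t' + (M.ev t x • (M.e t'' - M.e t') + y) = M.ext x t t'' + y := by
      simp only [ext]; module
    rwa [h3] at h2
  have hμbound : ∀ t', t ≤ t' → μ t' ≤ |C| * (‖x‖ + ‖x‖) := by
    intro t' h
    have h1 := hμle t' 0 (M.above_zero t')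
    rw [add_zero] at h1
    refine h1.trans ((hN _).2.trans ?_)
    apply mul_le_mul (le_abs_self C) _ (norm_nonneg _) (abs_nonneg C)
    unfold ext
    refine (norm_add_le _ _).trans ?_
    gcongr
    rw [norm_smul]
    calc ‖M.ev t x‖ * ‖M.e t' - M.e t‖ ≤ ‖x‖ * 1 := by
          apply mul_le_mul (M.ev_le x t) (M.norm_e_sub_le h) (norm_nonneg _) (norm_nonneg _)
      _ = ‖x‖ := mul_one _
  obtain ⟨q, hq1, hq2⟩ := exhaustion (P := {t' : T // t ≤ t'}) (fun a b => a.1 ≤ b.1)
    (fun _ => le_rfl) (fun _ _ _ h1 h2 => le_trans h1 h2)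
    (fun s hs => by
      obtain ⟨b, hb⟩ := hT.seq (fun n => (s n).1) hs
      exact ⟨⟨b, (s 0).2.trans (hb 0)⟩, hb⟩)
    (fun a => μ a.1) (fun a b h => hμmono _ _ h) ⟨t, le_rfl⟩ (|C| * (‖x‖ + ‖x‖))
    (fun q _ => hμbound q.1 q.2)
  have hconst : ∀ r, q.1 ≤ r → μ r = μ q.1 := by
    intro r hr
    exact hq2 ⟨r, q.2.trans hr⟩ hr
  have hkey : ∀ r, q.1 ≤ r → N (M.ext x t r) ≤ μ q.1 := by
    intro r hr
    apply M.avg N hT hc hN (t := r)
    intro u hu ε hε
    have h1 : μ u < μ q.1 + ε := by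
      rw [hconst u (hr.trans hu.le)]; linarith
    obtain ⟨_, ⟨y, hy, rfl⟩, hlt⟩ := exists_lt_of_csInf_lt (hne u) h1
    refine ⟨y, hy, ?_⟩
    rw [M.ext_ext hx (q.2.trans hr)]
    exact hlt
  refine ⟨q.1, q.2, M.suppIn_ext hx q.2, ?_, ?_⟩
  · intro t' ht'
    rw [M.ext_ext hx q.2]
    refine (hkey t' ht').trans ?_
    have := hμle q.1 0 (M.above_zero _)
    rwa [add_zero] at this
  · intro y hy
    exact (hkey q.1 le_rfl).trans (hμle q.1 y hy)

theorem Good.ext (hT : TreeAx T) {x : X} {t t' : T} (h : M.Good N x t) (ht : t ≤ t') :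
    M.Good N (M.ext x t t') t' := by
  obtain ⟨h1, h2, h3⟩ := h
  have hab : ∀ y, M.Above t' y → N x ≤ N (M.ext x t t' + y) := by
    intro y hy
    have h4 : M.Above t (M.ev t x • (M.e t' - M.e t) + y) :=
      Above.add M (Above.smul M (M.above_e_sub hT ht) _) (Above.mono M ht hy)
    have h5 := h3 _ h4
    have h6 : x + (M.ev t x • (M.e t' - M.e t) + y) = M.ext x t t' + y := by
      simp only [TreeModel.ext]; module
    rwa [h6] at h5
  refine ⟨M.suppIn_ext h1 ht, ?_, ?_⟩
  · intro t'' ht''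
    rw [M.ext_ext h1 ht]
    have h4 := hab 0 (M.above_zero _)
    rw [add_zero] at h4
    exact (h2 t'' (ht.trans ht'')).trans h4
  · intro y hy
    exact (h2 t' ht).trans (hab y hy)

theorem exists_good_family (hT : TreeAx T) {c C : ℝ} (hc : 0 < c)
    (hN : ∀ x : X, c * ‖x‖ ≤ N x ∧ N x ≤ C * ‖x‖) (z : ℕ → X) {t : T}
    (hz : ∀ j, M.SuppIn (z j) t) :
    ∃ t', t ≤ t' ∧ ∀ j, M.Good N (M.ext (z j) t t') t' := by
  obtain ⟨f, hf1, hf2⟩ := dep_choice (α := T)
    (fun _ a => t ≤ a)
    (fun n a b => a ≤ b ∧ M.Good N (M.ext (z n) t b) b) ⟨t, le_rfl⟩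
    (by
      intro n a ha
      obtain ⟨b, hb1, hb2⟩ := M.exists_good N hT hc hN (M.suppIn_ext (hz n) ha)
      rw [M.ext_ext (hz n) ha] at hb2
      exact ⟨b, ha.trans hb1, hb1, hb2⟩)
  obtain ⟨b, hb⟩ := hT.seq f (fun n => (hf2 n).1)
  refine ⟨b, (hf1 0).trans (hb 0), ?_⟩
  intro j
  have h1 := (hf2 j).2
  have h2 := Good.ext M N hT h1 (hb (j + 1))
  rwa [M.ext_ext (hz j) (hf1 (j + 1))] at h2

theorem continuous_of_bound {C : ℝ} (hN : ∀ x : X, N x ≤ C * ‖x‖) : Continuous N := by
  apply Seminorm.continuous_of_continuousAt_zero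
  have h0 : N 0 = 0 := map_zero N
  rw [ContinuousAt, h0]
  apply squeeze_zero (fun x => apply_nonneg N x) hN
  have : Tendsto (fun x : X => C * ‖x‖) (𝓝 0) (𝓝 (C * ‖(0 : X)‖)) := by
    apply Continuous.tendsto
    fun_prop
  simpa using this

theorem good_of_tendsto {C : ℝ} (hN : ∀ x : X, N x ≤ C * ‖x‖) {t : T} {x : ℕ → X} {y : X}
    (hx : ∀ᶠ n in atTop, M.Good N (x n) t) (hlim : Tendsto x atTop (𝓝 y)) : M.Good N y t := by
  have hcont := continuous_of_bound N hN
  have hNx : Tendsto (fun n => N (x n)) atTop (𝓝 (N y)) := (hcont.tendsto y).comp hlim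
  refine ⟨?_, ?_, ?_⟩
  · intro s hs
    have h1 : Tendsto (fun n => M.ev s (x n)) atTop (𝓝 (M.ev s y)) :=
      ((M.ev s).continuous.tendsto y).comp hlim
    refine tendsto_nhds_unique h1 (Tendsto.congr' ?_ tendsto_const_nhds)
    filter_upwards [hx] with n hn
    exact (hn.1 s hs).symm
  · intro t' ht'
    have h1 : Tendsto (fun n => N (M.ext (x n) t t')) atTop (𝓝 (N (M.ext y t t'))) := by
      have h2 : Continuous (fun z : X => M.ext z t t') := by
        unfold TreeModel.ext
        have := (M.ev t).continuous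
        fun_prop
      exact ((hcont.comp h2).tendsto y).comp hlim
    apply le_of_tendsto_of_tendsto h1 hNx
    filter_upwards [hx] with n hn
    exact hn.2.1 t' ht'
  · intro w hw
    have h1 : Tendsto (fun n => N (x n + w)) atTop (𝓝 (N (y + w))) := by
      have h2 : Continuous (fun z : X => z + w) := by fun_prop
      exact ((hcont.comp h2).tendsto y).comp hlim
    apply le_of_tendsto_of_tendsto hNx h1
    filter_upwards [hx] with n hn
    exact hn.2.2 w hw

end TreeModel

end Pool.Agent.Helper54
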