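import Pool.Agent.Helper54.Good

set_option autoImplicit false
set_option linter.unusedSectionVars false

open Filter Topology

namespace Pool.Agent.Helper54

variable {T : Type} [PartialOrder T] [OrderBot T] {X : Type} [NormedAddCommGroup X]
  [NormedSpace ℝ X] (M : TreeModel T X) (N : Seminorm ℝ X)

namespace TreeModel

/-- `q` is an extension of `p` whose new values lie between the old and the new final value. -/
def Ext (p q : X × T) : Prop :=
  p.2 ≤ q.2 ∧ (∀ s, ¬ p.2 < s → M.ev s q.1 = M.ev s p.1) ∧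
  (∀ s, p.2 < s → s ≤ q.2 → M.ev p.2 p.1 ≤ M.ev s q.1 ∧ M.ev s q.1 ≤ M.ev q.2 q.1) ∧
  M.ev p.2 p.1 ≤ M.ev q.2 q.1

theorem Ext.refl (p : X × T) : M.Ext p p :=
  ⟨le_rfl, fun _ _ => rfl, fun _ h1 h2 => absurd h2 (not_le_of_gt h1), le_rfl⟩

theorem Ext.trans (hT : TreeAx T) {p q r : X × T} (h1 : M.Ext p q) (h2 : M.Ext q r) :
    M.Ext p r := by
  obtain ⟨a1, a2, a3, a4⟩ := h1
  obtain ⟨b1, b2, b3, b4⟩ := h2
  refine ⟨a1.trans b1, ?_, ?_, a4.trans b4⟩
  · intro s hs
    rw [b2 s (fun h => hs (lt_of_le_of_lt a1 h)), a2 s hs]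
  · intro s hs1 hs2
    by_cases h : s ≤ q.2
    · rw [b2 s (not_lt_of_ge h)]
      obtain ⟨c1, c2⟩ := a3 s hs1 h
      exact ⟨c1, c2.trans b4⟩
    · have hlt : q.2 < s := by
        rcases hT.chain hs2 b1 with h3 | h3
        · exact absurd h3 h
        · exact lt_of_le_of_ne h3 (fun h4 => h h4.ge)
      obtain ⟨c1, c2⟩ := b3 s hlt hs2
      exact ⟨a4.trans c1, c2⟩

theorem ext_Ext (hT : TreeAx T) {x : X} {t t' : T} (hx : M.SuppIn x t) (h : t ≤ t') :
    M.Ext (x, t) (M.ext x t t', t') := by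
  refine ⟨h, ?_, ?_, ?_⟩
  · intro s hs
    simp only at hs ⊢
    have h1 := M.above_e_sub hT h s hs
    unfold ext
    rw [map_add, map_smul, h1, smul_zero, add_zero]
  · intro s hs1 hs2
    simp only at hs1 hs2 ⊢
    rw [M.ev_ext_mid hx (not_le_of_gt hs1) hs2, M.ev_ext_self hx h]
    exact ⟨le_rfl, le_rfl⟩
  · simp only
    rw [M.ev_ext_self hx h]

/-- Limits of increasing sequences of good pairs. -/
theorem exists_limit [CompleteSpace X] (hT : TreeAx T) {C : ℝ} (hN : ∀ x : X, N x ≤ C * ‖x‖)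
    (p : ℕ → X × T) (hg : ∀ n, M.Good N (p n).1 (p n).2) (hp : ∀ n, M.Ext (p n) (p (n + 1)))
    (B : ℝ) (hB : ∀ n, M.ev (p n).2 (p n).1 ≤ B) :
    ∃ q : X × T, M.Good N q.1 q.2 ∧ (∀ n, M.Ext (p n) q) ∧
      Tendsto (fun n => M.ext (p n).1 (p n).2 q.2) atTop (𝓝 q.1) ∧
      Tendsto (fun n => M.ev (p n).2 (p n).1) atTop (𝓝 (M.ev q.2 q.1)) := by
  classical
  obtain ⟨t, ht⟩ := hT.seq (fun n => (p n).2) (fun n => (hp n).1)
  have hpm : ∀ n m, n ≤ m → M.Ext (p n) (p m) := by
    intro n m hnm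
    induction m, hnm using Nat.le_induction with
    | base => exact Ext.refl M _
    | succ m _ ih => exact Ext.trans M hT ih (hp m)
  set v : ℕ → ℝ := fun n => M.ev (p n).2 (p n).1 with hv
  set F : ℕ → X := fun n => M.ext (p n).1 (p n).2 t with hF
  have hvmono : Monotone v := by
    intro n m hnm
    exact (hpm n m hnm).2.2.2
  -- values of F
  have hval : ∀ n m, n ≤ m → ∀ s, |M.ev s (F m - F n)| ≤ v m - v n := by
    intro n m hnm s
    have hmono : 0 ≤ v m - v n := sub_nonneg.mpr (hvmono hnm)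
    rw [map_sub]
    obtain ⟨e1, e2, e3, e4⟩ := hpm n m hnm
    by_cases h1 : s ≤ (p n).2
    · have : M.ev s (F m) = M.ev s (F n) := by
        rw [hF]
        simp only
        rw [M.ev_ext_le (ht m) (h1.trans e1), M.ev_ext_le (ht n) h1, e2 s (not_lt_of_ge h1)]
      rw [this, sub_self, abs_zero]
      exact hmono
    · by_cases h2 : s ≤ t
      · have hlt : (p n).2 < s := by
          rcases hT.chain h2 (ht n) with h3 | h3
          · exact absurd h3 h1
          · exact lt_of_le_of_ne h3 (fun h4 => h1 h4.ge)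
        have hFn : M.ev s (F n) = v n := M.ev_ext_mid (hg n).1 h1 h2
        rw [hFn]
        by_cases h3 : s ≤ (p m).2
        · have hFm : M.ev s (F m) = M.ev s (p m).1 := M.ev_ext_le (ht m) h3
          rw [hFm]
          obtain ⟨c1, c2⟩ := e3 s hlt h3
          rw [abs_of_nonneg (sub_nonneg.mpr c1)]
          exact sub_le_sub_right c2 _
        · have hFm : M.ev s (F m) = v m := M.ev_ext_mid (hg m).1 h3 h2
          rw [hFm, abs_of_nonneg hmono]
      · have hFn : M.ev s (F n) = 0 := M.suppIn_ext (hg n).1 (ht n) s h2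
        have hFm : M.ev s (F m) = 0 := M.suppIn_ext (hg m).1 (ht m) s h2
        rw [hFn, hFm, sub_self, abs_zero]
        exact hmono
  have hnorm : ∀ n m, n ≤ m → ‖F m - F n‖ ≤ v m - v n := by
    intro n m hnm
    exact M.norm_le _ _ (sub_nonneg.mpr (hvmono hnm)) (hval n m hnm)
  have hvbdd : BddAbove (Set.range v) := ⟨B, by rintro _ ⟨n, rfl⟩; exact hB n⟩
  have hvlim : Tendsto v atTop (𝓝 (⨆ n, v n)) := tendsto_atTop_ciSup hvmono hvbdd
  have hvc : CauchySeq v := hvlim.cauchySeq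
  have hFc : CauchySeq F := by
    rw [Metric.cauchySeq_iff'] at hvc ⊢
    intro ε hε
    obtain ⟨n0, hn0⟩ := hvc ε hε
    refine ⟨n0, fun n hn => ?_⟩
    have h1 := hn0 n hn
    rw [dist_eq_norm]
    refine lt_of_le_of_lt (hnorm n0 n hn) ?_
    rw [Real.dist_eq] at h1
    exact lt_of_le_of_lt (le_abs_self _) h1
  obtain ⟨f, hf⟩ := cauchySeq_tendsto_of_complete hFc
  have hevF : ∀ s, Tendsto (fun n => M.ev s (F n)) atTop (𝓝 (M.ev s f)) := fun s =>
    ((M.ev s).continuous.tendsto f).comp hf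
  have hevt : M.ev t f = ⨆ n, v n := by
    refine tendsto_nhds_unique (hevF t) (Tendsto.congr ?_ hvlim)
    intro n
    exact (M.ev_ext_self (hg n).1 (ht n)).symm
  have hvle : ∀ n, v n ≤ M.ev t f := by
    intro n
    rw [hevt]
    exact le_ciSup hvbdd n
  refine ⟨(f, t), ?_, ?_, hf, ?_⟩
  · apply M.good_of_tendsto N hN _ hf
    exact Eventually.of_forall (fun n => Good.ext M N hT (hg n) (ht n))
  · intro n
    refine ⟨ht n, ?_, ?_, hvle n⟩
    · intro s hs
      simp only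
      refine tendsto_nhds_unique (hevF s) (Tendsto.congr' ?_ tendsto_const_nhds)
      filter_upwards [eventually_ge_atTop n] with m hm
      obtain ⟨e1, e2, e3, e4⟩ := hpm n m hm
      by_cases h2 : s ≤ t
      · have h1 : s ≤ (p n).2 := by
          rcases hT.chain h2 (ht n) with h3 | h3
          · exact h3
          · by_contra h4
            exact hs (lt_of_le_of_ne h3 (fun h5 => h4 h5.ge))
        rw [hF]
        simp only
        rw [M.ev_ext_le (ht m) (h1.trans e1), e2 s (not_lt_of_ge h1)]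
      · have hFm : M.ev s (F m) = 0 := M.suppIn_ext (hg m).1 (ht m) s h2
        rw [hFm]
        exact (hg n).1 s (fun h => h2 (h.trans (ht n)))
    · intro s hs1 hs2
      simp only at hs2 ⊢
      have hmem : ∀ᶠ m in atTop, v n ≤ M.ev s (F m) ∧ M.ev s (F m) ≤ M.ev t f := by
        filter_upwards [eventually_ge_atTop n] with m hm
        obtain ⟨e1, e2, e3, e4⟩ := hpm n m hm
        by_cases h3 : s ≤ (p m).2
        · have hFm : M.ev s (F m) = M.ev s (p m).1 := M.ev_ext_le (ht m) h3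
          rw [hFm]
          obtain ⟨c1, c2⟩ := e3 s hs1 h3
          exact ⟨c1, c2.trans (hvle m)⟩
        · have hFm : M.ev s (F m) = v m := M.ev_ext_mid (hg m).1 h3 hs2
          rw [hFm]
          exact ⟨e4, hvle m⟩
      constructor
      · exact ge_of_tendsto (hevF s) (hmem.mono (fun m hm => hm.1))
      · exact le_of_tendsto (hevF s) (hmem.mono (fun m hm => hm.2))
  · show Tendsto v atTop (𝓝 (M.ev t f))
    rw [hevt]
    exact hvlim

/-- `q` is reached from `p` with increase of the norm at most `κ` times the increase of the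
final value. -/
def KStep (κ : ℝ) (p q : X × T) : Prop :=
  M.Ext p q ∧ N q.1 ≤ N p.1 + κ * (M.ev q.2 q.1 - M.ev p.2 p.1)

/-- Every good proper extension of `q` increases the norm by more than `κ` times the increase of
the final value. -/
def KMax (κ : ℝ) (q : X × T) : Prop :=
  ∀ r : X × T, M.Good N r.1 r.2 → M.Ext q r → M.ev r.2 r.1 ≠ M.ev q.2 q.1 →
    N q.1 + κ * (M.ev r.2 r.1 - M.ev q.2 q.1) < N r.1

theorem exists_kmax [CompleteSpace X] (hT : TreeAx T) {c C : ℝ}
    (hN : ∀ x : X, c * ‖x‖ ≤ N x ∧ N x ≤ C * ‖x‖) {κ : ℝ} (hκ0 : 0 ≤ κ) (hκ : κ < c)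
    (p : X × T) (hp : M.Good N p.1 p.2) :
    ∃ q : X × T, M.Good N q.1 q.2 ∧ M.KStep N κ p q ∧ M.KMax N κ q := by
  classical
  have hbound : ∀ a b : X × T, M.KStep N κ a b →
      M.ev b.2 b.1 ≤ (N a.1 - κ * M.ev a.2 a.1) / (c - κ) := by
    intro a b hab
    rw [le_div_iff₀ (sub_pos.mpr hκ)]
    have h1 : M.ev b.2 b.1 ≤ ‖b.1‖ := (le_abs_self _).trans (M.ev_le _ _)
    have h2 := (hN b.1).1
    have h3 := hab.2
    have h4 : c * M.ev b.2 b.1 ≤ c * ‖b.1‖ :=
      mul_le_mul_of_nonneg_left h1 (hκ0.trans hκ.le)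
    nlinarith
  obtain ⟨q, hq1, hq2⟩ := exhaustion (P := {a : X × T // M.Good N a.1 a.2})
    (fun a b => M.KStep N κ a.1 b.1)
    (fun a => ⟨Ext.refl M _, by simp⟩)
    (fun a b d h1 h2 => ⟨Ext.trans M hT h1.1 h2.1, by
      have := h1.2; have := h2.2; linarith⟩)
    (fun s hs => by
      have hstep : ∀ n m, n ≤ m → M.KStep N κ (s n).1 (s m).1 := by
        intro n m hnm
        induction m, hnm using Nat.le_induction with
        | base => exact ⟨Ext.refl M _, by simp⟩
        | succ m _ ih =>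
          refine ⟨Ext.trans M hT ih.1 (hs m).1, ?_⟩
          have := ih.2; have := (hs m).2; linarith
      obtain ⟨q, hq1, hq2, hq3, hq4⟩ := M.exists_limit N hT (fun x => (hN x).2)
        (fun n => (s n).1) (fun n => (s n).2) (fun n => (hs n).1)
        ((N (s 0).1.1 - κ * M.ev (s 0).1.2 (s 0).1.1) / (c - κ))
        (fun n => hbound _ _ (hstep 0 n (Nat.zero_le n)))
      refine ⟨⟨q, hq1⟩, fun n => ⟨hq2 n, ?_⟩⟩
      have hcont := continuous_of_bound N (fun x => (hN x).2)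
      have h1 : Tendsto (fun m => N (M.ext (s m).1.1 (s m).1.2 q.2)) atTop (𝓝 (N q.1)) :=
        (hcont.tendsto q.1).comp hq3
      have h2 : Tendsto (fun m => N (s n).1.1 + κ * (M.ev (s m).1.2 (s m).1.1
          - M.ev (s n).1.2 (s n).1.1)) atTop
          (𝓝 (N (s n).1.1 + κ * (M.ev q.2 q.1 - M.ev (s n).1.2 (s n).1.1))) := by
        apply Tendsto.const_add
        apply Tendsto.const_mul
        exact hq4.sub_const _
      refine le_of_tendsto_of_tendsto h1 h2 ?_
      filter_upwards [eventually_ge_atTop n] with m hm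
      exact ((s m).2.2.1 q.2 (hq2 m).1).trans (hstep n m hm).2)
    (fun a => M.ev a.1.2 a.1.1) (fun a b h => h.1.2.2.2) ⟨p, hp⟩
    ((N p.1 - κ * M.ev p.2 p.1) / (c - κ)) (fun q hq => hbound _ _ hq)
  refine ⟨q.1, q.2, hq1, ?_⟩
  intro r hr1 hr2 hr3
  by_contra hcon
  push Not at hcon
  exact hr3 (hq2 ⟨r, hr1⟩ ⟨hr2, hcon⟩)

theorem KMax.ext (hT : TreeAx T) {κ : ℝ} {x : X} {t t' : T} (h : M.KMax N κ (x, t))
    (hg : M.Good N x t) (ht : t ≤ t') : M.KMax N κ (M.ext x t t', t') := by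
  intro r hr1 hr2 hr3
  simp only at hr3 ⊢
  rw [M.ev_ext_self hg.1 ht] at hr3 ⊢
  have h1 := h r hr1 (Ext.trans M hT (M.ext_Ext hT hg.1 ht) hr2) hr3
  simp only at h1
  have h2 := hg.2.1 t' ht
  linarith

end TreeModel

end Pool.Agent.Helper54
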