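import Pool.Agent.Helper54.Contra

set_option autoImplicit false
set_option linter.unusedSectionVars false

open Filter Topology

namespace Pool.Agent.Helper54

/-- In a polyhedral norm, for all `f` and `y ≠ 0` some functional norms `f` and `f + y / j`
simultaneously, for some `j ≥ 1`. -/
theorem exists_norming_of_polyhedral {X : Type} [NormedAddCommGroup X] [NormedSpace ℝ X]
    (N : Seminorm ℝ X) {c C : ℝ} (hc : 0 < c) (hN : ∀ x : X, c * ‖x‖ ≤ N x ∧ N x ≤ C * ‖x‖)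
    (hpoly : ∀ E : Submodule ℝ X, FiniteDimensional ℝ E →
      ∃ (n : ℕ) (φ : Fin n → X →L[ℝ] ℝ) (a : Fin n → ℝ), ∀ x ∈ E, (N x ≤ 1 ↔ ∀ i, φ i x ≤ a i))
    (hcont : Continuous N) (f y : X) (hy : y ≠ 0) :
    ∃ j : ℕ, 1 ≤ j ∧ ∃ h : X →L[ℝ] ℝ, (∀ x, h x ≤ N x) ∧ h f = N f ∧
      h (f + (j : ℝ)⁻¹ • y) = N (f + (j : ℝ)⁻¹ • y) := by
  classical
  set E : Submodule ℝ X := Submodule.span ℝ {f, y} with hE
  have hfE : f ∈ E := Submodule.subset_span (by simp)
  have hyE : y ∈ E := Submodule.subset_span (by simp)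
  have hfd : FiniteDimensional ℝ E := FiniteDimensional.span_of_finite ℝ (by simp)
  obtain ⟨n, φ, a, hφ⟩ := hpoly E hfd
  have hNpos : ∀ x : X, x ≠ 0 → 0 < N x := by
    intro x hx
    have := (hN x).1
    have h2 : 0 < c * ‖x‖ := mul_pos hc (norm_pos_iff.mpr hx)
    linarith
  have ha0 : ∀ i, 0 ≤ a i := by
    intro i
    have h1 := (hφ 0 E.zero_mem).mp (by rw [map_zero]; exact zero_le_one) i
    rwa [map_zero] at h1
  -- domination on E
  have hdom : ∀ i, ∀ x ∈ E, φ i x ≤ a i * N x := by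
    intro i x hx
    by_cases hx0 : x = 0
    · rw [hx0, map_zero, map_zero, mul_zero]
    · have hr := hNpos x hx0
      have h1 : N ((N x)⁻¹ • x) ≤ 1 := by
        rw [map_smul_eq_mul, norm_inv, Real.norm_of_nonneg hr.le, inv_mul_cancel₀ hr.ne']
      have h2 := (hφ _ (E.smul_mem _ hx)).mp h1 i
      rw [map_smul, smul_eq_mul, inv_mul_le_iff₀ hr] at h2
      linarith
  -- attainment on E
  have hatt : ∀ x ∈ E, x ≠ 0 → ∃ i, 0 < a i ∧ φ i x = a i * N x := by
    intro x hx hx0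
    by_contra hcon
    push Not at hcon
    have hr := hNpos x hx0
    have hev : ∀ i, ∀ᶠ u : ℝ in 𝓝[>] 1, φ i ((u * (N x)⁻¹) • x) ≤ a i := by
      intro i
      rcases (ha0 i).eq_or_lt with h0 | h0
      · -- a i = 0
        have h1 := hdom i x hx
        rw [← h0, zero_mul] at h1
        filter_upwards [self_mem_nhdsWithin] with u hu
        have hu' : (1 : ℝ) < u := hu
        rw [map_smul, smul_eq_mul, ← h0]
        apply mul_nonpos_of_nonneg_of_nonpos _ h1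
        have : 0 < (N x)⁻¹ := inv_pos.mpr hr
        positivity
      · have h1 : φ i x < a i * N x := lt_of_le_of_ne (hdom i x hx) (hcon i h0)
        have h2 : Tendsto (fun u : ℝ => φ i ((u * (N x)⁻¹) • x)) (𝓝[>] 1)
            (𝓝 (φ i (((1 : ℝ) * (N x)⁻¹) • x))) := by
          apply Tendsto.mono_left _ nhdsWithin_le_nhds
          apply Continuous.tendsto
          fun_prop
        have h3 : φ i (((1 : ℝ) * (N x)⁻¹) • x) < a i := by
          rw [one_mul, map_smul, smul_eq_mul, inv_mul_lt_iff₀ hr]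
          linarith
        exact (h2.eventually_lt_const h3).mono (fun u hu => hu.le)
    have hall := eventually_all.mpr hev
    obtain ⟨u, hu1, hu2⟩ := (hall.and self_mem_nhdsWithin).exists
    have hu2' : (1 : ℝ) < u := hu2
    have h1 := (hφ _ (E.smul_mem (u * (N x)⁻¹) hx)).mpr hu1
    rw [map_smul_eq_mul, norm_mul, norm_inv, Real.norm_of_nonneg hr.le, mul_assoc,
      inv_mul_cancel₀ hr.ne', mul_one, Real.norm_of_nonneg (by linarith)] at h1
    linarith
  -- the points f + y / j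
  have hxlim : Tendsto (fun j : ℕ => f + (j : ℝ)⁻¹ • y) atTop (𝓝 f) := by
    have h1 : Tendsto (fun j : ℕ => ((j : ℝ)⁻¹)) atTop (𝓝 0) := tendsto_inv_atTop_nhds_zero_nat
    have h2 : Tendsto (fun j : ℕ => f + (j : ℝ)⁻¹ • y) atTop (𝓝 (f + (0 : ℝ) • y)) :=
      (h1.smul_const y).const_add f
    simpa using h2
  have hxne : ∀ᶠ j : ℕ in atTop, f + (j : ℝ)⁻¹ • y ≠ 0 := by
    by_cases hf0 : f = 0
    · filter_upwards [eventually_ge_atTop 1] with j hj
      rw [hf0, zero_add]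
      apply smul_ne_zero _ hy
      have : (0 : ℝ) < j := by exact_mod_cast hj
      positivity
    · exact hxlim.eventually_ne hf0
  have hxE : ∀ j : ℕ, f + (j : ℝ)⁻¹ • y ∈ E := fun j => E.add_mem hfE (E.smul_mem _ hyE)
  have hex : ∀ᶠ j : ℕ in atTop, ∃ i, 0 < a i ∧
      φ i (f + (j : ℝ)⁻¹ • y) = a i * N (f + (j : ℝ)⁻¹ • y) := by
    filter_upwards [hxne] with j hj
    exact hatt _ (hxE j) hj
  obtain ⟨i, hi⟩ : ∃ i, ∃ᶠ j : ℕ in atTop, 0 < a i ∧
      φ i (f + (j : ℝ)⁻¹ • y) = a i * N (f + (j : ℝ)⁻¹ • y) := by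
    by_contra hcon
    push Not at hcon
    have h1 : ∀ᶠ j : ℕ in atTop, ∀ i, ¬ (0 < a i ∧
        φ i (f + (j : ℝ)⁻¹ • y) = a i * N (f + (j : ℝ)⁻¹ • y)) := by
      rw [eventually_all]
      intro i
      have h2 := hcon i
      filter_upwards [h2] with j hj
      intro hj'
      exact hj hj'.1 hj'.2
    obtain ⟨j, hj1, hj2⟩ := (hex.and h1).exists
    obtain ⟨i, hi⟩ := hj1
    exact hj2 i hi
  have hai : 0 < a i := by
    obtain ⟨j, hj⟩ := hi.exists
    exact hj.1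
  have hif : φ i f = a i * N f := by
    by_contra hne
    have h1 : Tendsto (fun j : ℕ => φ i (f + (j : ℝ)⁻¹ • y) - a i * N (f + (j : ℝ)⁻¹ • y)) atTop
        (𝓝 (φ i f - a i * N f)) :=
      (((φ i).continuous.tendsto f).comp hxlim).sub (((hcont.tendsto f).comp hxlim).const_mul _)
    have h2 := h1.eventually_ne (sub_ne_zero.mpr hne)
    obtain ⟨j, hj1, hj2⟩ := (hi.and_eventually h2).exists
    exact hj2 (sub_eq_zero.mpr hj1.2)
  obtain ⟨j, hj1, hj2⟩ := (hi.and_eventually (eventually_ge_atTop 1)).exists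
  -- extend
  obtain ⟨h, hh1, hh2⟩ := exists_extension_of_le_sublinear
    (⟨E, ((a i)⁻¹ • (φ i : X →ₗ[ℝ] ℝ)).domRestrict E⟩ : X →ₗ.[ℝ] ℝ) N
    (fun c hc x => by rw [map_smul_eq_mul, Real.norm_of_nonneg hc.le])
    (fun x y => map_add_le_add N x y)
    (fun x => by
      show (a i)⁻¹ * φ i x ≤ N x
      rw [inv_mul_le_iff₀ hai]
      exact hdom i x x.2)
  have hhE : ∀ x (hx : x ∈ E), h x = (a i)⁻¹ * φ i x := fun x hx => hh1 ⟨x, hx⟩
  refine ⟨j, hj2, h.mkContinuous C ?_, ?_, ?_, ?_⟩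
  · intro x
    rw [Real.norm_eq_abs, abs_le]
    constructor
    · have h1 := hh2 (-x)
      rw [map_neg, map_neg_eq_map] at h1
      linarith [(hN x).2]
    · exact (hh2 x).trans (hN x).2
  · intro x
    exact hh2 x
  · show h f = N f
    rw [hhE f hfE, hif, ← mul_assoc, inv_mul_cancel₀ hai.ne', one_mul]
  · show h (f + (j : ℝ)⁻¹ • y) = N (f + (j : ℝ)⁻¹ • y)
    rw [hhE _ (hxE j), hj1.2, ← mul_assoc, inv_mul_cancel₀ hai.ne', one_mul]

variable {T : Type} [PartialOrder T] [OrderBot T] {X : Type} [NormedAddCommGroup X]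
  [NormedSpace ℝ X]

/-- The tree space has no equivalent polyhedral norm. -/
theorem not_polyhedral [CompleteSpace X] (M : TreeModel T X) (hT : TreeAx T) :
    ¬ ∃ N : Seminorm ℝ X, (∃ c C : ℝ, 0 < c ∧ ∀ x : X, c * ‖x‖ ≤ N x ∧ N x ≤ C * ‖x‖) ∧
      ∀ E : Submodule ℝ X, FiniteDimensional ℝ E →
        ∃ (n : ℕ) (φ : Fin n → X →L[ℝ] ℝ) (a : Fin n → ℝ),
          ∀ x ∈ E, (N x ≤ 1 ↔ ∀ i, φ i x ≤ a i) := by
  rintro ⟨N, ⟨c, C, hc, hN⟩, hpoly⟩
  have hN' : ∀ x : X, c * ‖x‖ ≤ N x ∧ N x ≤ (max C 1) * ‖x‖ := fun x =>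
    ⟨(hN x).1, (hN x).2.trans (mul_le_mul_of_nonneg_right (le_max_left _ _) (norm_nonneg _))⟩
  have hC : 0 < max C 1 := lt_of_lt_of_le one_pos (le_max_right _ _)
  obtain ⟨f, y, hy, hmain⟩ := M.main_contra N hT hc hC hN'
  have hcont := TreeModel.continuous_of_bound N (fun x => (hN x).2)
  obtain ⟨j, hj, h, h1, h2, h3⟩ := exists_norming_of_polyhedral N hc hN' hpoly hcont f y hy
  exact hmain j hj h h1 h2 h3

end Pool.Agent.Helper54
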