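import Pool.Agent.Helper54.KMax

set_option autoImplicit false
set_option linter.unusedSectionVars false

open Filter Topology

namespace Pool.Agent.Helper54

variable {T : Type} [PartialOrder T] [OrderBot T] {X : Type} [NormedAddCommGroup X]
  [NormedSpace ℝ X] (M : TreeModel T X) (N : Seminorm ℝ X)

namespace TreeModel

/-- State of the construction: a pair `(f, t)` and a direction `y`. -/
structure State (T X : Type) where
  f : X
  t : T
  y : X

/-- Invariant at stage `n`. -/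
def Inv (c : ℝ) (n : ℕ) (S : State T X) : Prop :=
  M.SuppIn S.y S.t ∧ M.ev S.t S.y = (1 / 2 : ℝ) ^ n ∧
  (∀ j : ℕ, M.Good N (S.f + (j : ℝ)⁻¹ • S.y) S.t) ∧
  M.KMax N (c / 4 + c / 4 * (1 / 2 : ℝ) ^ n) (S.f, S.t)

/-- Step relation at stage `n`. -/
def Step (n : ℕ) (S S' : State T X) : Prop :=
  M.Ext (S.f, S.t) (S'.f, S'.t) ∧ M.ev S.t S.f < M.ev S'.t S'.f ∧
  M.ev S'.t S'.f - M.ev S.t S.f ≤ (1 / 4 : ℝ) ^ n ∧
  S'.y = S.y + ((1 / 2 : ℝ) ^ (n + 1)) • (M.e S'.t - M.e S.t)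

theorem good_of_inv {c : ℝ} {n : ℕ} {S : State T X} (h : M.Inv N c n S) : M.Good N S.f S.t := by
  have := h.2.2.1 0
  simpa using this

theorem exists_gt (hT : TreeAx T) (t : T) : ∃ u, t < u := by
  obtain ⟨u, hu⟩ := (hT.inf t).nonempty
  exact ⟨u, hu.lt⟩

theorem suppIn_e (t : T) : M.SuppIn (M.e t) t := fun _ hs => M.ev_e_not_le hs

theorem SuppIn.mono {x : X} {t t' : T} (hx : M.SuppIn x t) (h : t ≤ t') : M.SuppIn x t' :=
  fun s hs => hx s (fun h1 => hs (h1.trans h))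

theorem SuppIn.add {x y : X} {t : T} (hx : M.SuppIn x t) (hy : M.SuppIn y t) :
    M.SuppIn (x + y) t := fun s hs => by rw [map_add, hx s hs, hy s hs, add_zero]

theorem SuppIn.sub {x y : X} {t : T} (hx : M.SuppIn x t) (hy : M.SuppIn y t) :
    M.SuppIn (x - y) t := fun s hs => by rw [map_sub, hx s hs, hy s hs, sub_zero]

theorem SuppIn.smul {x : X} {t : T} (hx : M.SuppIn x t) (a : ℝ) :
    M.SuppIn (a • x) t := fun s hs => by rw [map_smul, hx s hs, smul_zero]

theorem exists_state_zero [CompleteSpace X] (hT : TreeAx T) {c C : ℝ} (hc : 0 < c)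
    (hN : ∀ x : X, c * ‖x‖ ≤ N x ∧ N x ≤ C * ‖x‖) : ∃ S : State T X, M.Inv N c 0 S := by
  have hg0 : M.Good N (0 : X) (⊥ : T) := by
    refine ⟨fun s _ => map_zero _, ?_, ?_⟩
    · intro t' _
      simp [TreeModel.ext]
    · intro y _
      rw [map_zero]; exact apply_nonneg N _
  have hκ : c / 4 + c / 4 * (1 / 2 : ℝ) ^ 0 < c := by norm_num; linarith
  obtain ⟨q, hq1, _, hq3⟩ := M.exists_kmax N hT hN (by positivity) hκ (0, ⊥) hg0
  -- family
  obtain ⟨t', ht', hfam⟩ := M.exists_good_family N hT hc hN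
    (fun j : ℕ => q.1 + (j : ℝ)⁻¹ • M.e q.2) (t := q.2)
    (fun j => SuppIn.add M hq1.1 (SuppIn.smul M (M.suppIn_e q.2) _))
  refine ⟨⟨M.ext q.1 q.2 t', t', M.ext (M.e q.2) q.2 t'⟩, ?_, ?_, ?_, ?_⟩
  · exact M.suppIn_ext (M.suppIn_e q.2) ht'
  · simp only [pow_zero]
    rw [M.ev_ext_self (M.suppIn_e q.2) ht', M.ev_e_le le_rfl]
  · intro j
    have := hfam j
    rw [M.ext_add_smul] at this
    exact this
  · exact KMax.ext M N hT hq3 hq1 ht'

theorem exists_state_succ [CompleteSpace X] (hT : TreeAx T) {c C : ℝ} (hc : 0 < c) (hC : 0 < C)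
    (hN : ∀ x : X, c * ‖x‖ ≤ N x ∧ N x ≤ C * ‖x‖) (n : ℕ) (S : State T X)
    (hS : M.Inv N c n S) : ∃ S' : State T X, M.Inv N c (n + 1) S' ∧ M.Step n S S' := by
  have hgood := M.good_of_inv N hS
  obtain ⟨hy1, hy2, hy3, hkm⟩ := hS
  obtain ⟨f, t, y⟩ := S
  simp only at hgood hy1 hy2 hy3 hkm
  set v : ℝ := M.ev t f with hv
  -- step size
  set η : ℝ := c / C * (1 / 8 : ℝ) ^ (n + 1) with hη
  have hη0 : 0 < η := by positivity
  obtain ⟨t1, ht1⟩ := exists_gt hT t
  -- raise the value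
  set f1 : X := M.ext f t t1 + η • (M.e t1 - M.e t) with hf1
  have hf1s : M.SuppIn f1 t1 :=
    SuppIn.add M (M.suppIn_ext hgood.1 ht1.le)
      (SuppIn.smul M (SuppIn.sub M (M.suppIn_e t1) (SuppIn.mono M (M.suppIn_e t) ht1.le)) _)
  have hf1v : M.ev t1 f1 = v + η := by
    rw [hf1, map_add, map_smul, map_sub, M.ev_ext_self hgood.1 ht1.le, M.ev_e_le le_rfl,
      M.ev_e_not_le (not_le_of_gt ht1)]
    simp [hv]
  obtain ⟨t2, ht2, hg2⟩ := M.exists_good N hT hc hN hf1s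
  set f2 : X := M.ext f1 t1 t2 with hf2
  have htt2 : t ≤ t2 := ht1.le.trans ht2
  have hf2v : M.ev t2 f2 = v + η := by rw [hf2, M.ev_ext_self hf1s ht2, hf1v]
  have hf2eq : f2 = M.ext f t t2 + η • (M.e t2 - M.e t) := by
    rw [hf2, TreeModel.ext, hf1v, hf1]
    simp only [TreeModel.ext, ← hv]
    module
  have hNf2 : N f2 ≤ N f + C * η := by
    rw [hf2eq]
    refine (map_add_le_add N _ _).trans ?_
    have h1 := hgood.2.1 t2 htt2
    have h2 : N (η • (M.e t2 - M.e t)) ≤ C * η := by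
      rw [map_smul_eq_mul, Real.norm_of_nonneg hη0.le]
      have h3 := (hN (M.e t2 - M.e t)).2
      have h4 : C * ‖M.e t2 - M.e t‖ ≤ C * 1 :=
        mul_le_mul_of_nonneg_left (M.norm_e_sub_le htt2) hC.le
      calc η * N (M.e t2 - M.e t) ≤ η * (C * 1) :=
            mul_le_mul_of_nonneg_left (h3.trans h4) hη0.le
        _ = C * η := by ring
    linarith
  have hext2 : M.Ext (f, t) (f2, t2) := by
    refine ⟨htt2, ?_, ?_, ?_⟩
    · intro s hs
      simp only at hs ⊢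
      have h1 := M.above_e_sub hT htt2 s hs
      rw [hf2eq, map_add, map_smul, h1, smul_zero, add_zero]
      simp only [TreeModel.ext, map_add, map_smul, h1, smul_zero, add_zero]
    · intro s hs1 hs2
      simp only at hs1 hs2 ⊢
      rw [hf2v, hf2eq, map_add, map_smul, map_sub, M.ev_e_le hs2,
        M.ev_e_not_le (not_le_of_gt hs1), M.ev_ext_mid hgood.1 (not_le_of_gt hs1) hs2]
      simp only [← hv, smul_eq_mul]
      constructor <;> linarith
    · simp only
      rw [hf2v]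
      linarith
  -- maximalise
  set κ0 : ℝ := c / 4 + c / 4 * (1 / 2 : ℝ) ^ n with hκ0
  set κ1 : ℝ := c / 4 + c / 4 * (1 / 2 : ℝ) ^ (n + 1) with hκ1
  have hκ1c : κ1 < c := by
    have : (1 / 2 : ℝ) ^ (n + 1) ≤ 1 := pow_le_one₀ (by norm_num) (by norm_num)
    nlinarith
  have hκ1pos : 0 ≤ κ1 := by positivity
  obtain ⟨q, hq1, hq2, hq3⟩ := M.exists_kmax N hT hN hκ1pos hκ1c (f2, t2) hg2
  obtain ⟨g, r⟩ := q
  simp only at hq1
  have hr : t2 ≤ r := hq2.1.1
  set w : ℝ := M.ev r g with hw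
  have hwv : v + η ≤ w := by
    have := hq2.1.2.2.2
    simp only at this
    rw [hf2v] at this
    exact this
  have hNg : N g ≤ N f + C * η + κ1 * (w - v) := by
    have h1 := hq2.2
    simp only at h1
    rw [hf2v] at h1
    have h2 : κ1 * (w - (v + η)) ≤ κ1 * (w - v) :=
      mul_le_mul_of_nonneg_left (by linarith) hκ1pos
    linarith
  have hExtg : M.Ext (f, t) (g, r) := Ext.trans M hT hext2 hq2.1
  have hkmg := hkm (g, r) hq1 hExtg (by simp only; linarith)
  simp only at hkmg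
  have hdiff : (κ0 - κ1) * (w - v) < C * η := by linarith
  have hκdiff : κ0 - κ1 = c / 8 * (1 / 2 : ℝ) ^ n := by
    rw [hκ0, hκ1, pow_succ]; ring
  have hsmall : w - v ≤ (1 / 4 : ℝ) ^ n := by
    rw [hκdiff] at hdiff
    have h1 : C * η = c / 8 * (1 / 2 : ℝ) ^ n * (1 / 4 : ℝ) ^ n := by
      rw [hη]
      have h8 : (1 / 8 : ℝ) ^ (n + 1) = 1 / 8 * ((1 / 2 : ℝ) ^ n * (1 / 4 : ℝ) ^ n) := by
        rw [← mul_pow, pow_succ]; norm_num; ring
      rw [h8]
      field_simp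
    rw [h1] at hdiff
    have h2 : 0 < c / 8 * (1 / 2 : ℝ) ^ n := by positivity
    exact (lt_of_mul_lt_mul_left hdiff h2.le).le
  -- new direction
  set b : ℝ := (1 / 2 : ℝ) ^ (n + 1) with hb
  set z : X := y + b • (M.e r - M.e t) with hz
  have htr : t < r := lt_of_lt_of_le ht1 (ht2.trans hr)
  have hzs : M.SuppIn z r :=
    SuppIn.add M (SuppIn.mono M hy1 htr.le)
      (SuppIn.smul M (SuppIn.sub M (M.suppIn_e r) (SuppIn.mono M (M.suppIn_e t) htr.le)) _)
  have hzv : M.ev r z = b := by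
    rw [hz, map_add, map_smul, map_sub, hy1 r (not_le_of_gt htr), M.ev_e_le le_rfl,
      M.ev_e_not_le (not_le_of_gt htr)]
    simp
  obtain ⟨r', hr', hfam⟩ := M.exists_good_family N hT hc hN
    (fun j : ℕ => g + (j : ℝ)⁻¹ • z) (t := r)
    (fun j => SuppIn.add M hq1.1 (SuppIn.smul M hzs _))
  refine ⟨⟨M.ext g r r', r', M.ext z r r'⟩, ⟨?_, ?_, ?_, ?_⟩, ?_, ?_, ?_, ?_⟩
  · exact M.suppIn_ext hzs hr'
  · simp only
    rw [M.ev_ext_self hzs hr', hzv]
  · intro j
    have := hfam j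
    rw [M.ext_add_smul] at this
    exact this
  · exact KMax.ext M N hT hq3 hq1 hr'
  · exact Ext.trans M hT hExtg (M.ext_Ext hT hq1.1 hr')
  · simp only
    rw [M.ev_ext_self hq1.1 hr']
    linarith
  · simp only
    rw [M.ev_ext_self hq1.1 hr']
    exact hsmall
  · simp only
    rw [TreeModel.ext, hzv, hz]
    module

/-- The main construction: sequences of good pairs with slowly changing direction. -/
theorem exists_sequence [CompleteSpace X] (hT : TreeAx T) {c C : ℝ} (hc : 0 < c) (hC : 0 < C)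
    (hN : ∀ x : X, c * ‖x‖ ≤ N x ∧ N x ≤ C * ‖x‖) :
    ∃ S : ℕ → State T X, (∀ n, M.Inv N c n (S n)) ∧ ∀ n, M.Step n (S n) (S (n + 1)) :=
  dep_choice (fun n S => M.Inv N c n S) (fun n S S' => M.Step n S S')
    (M.exists_state_zero N hT hc hN) (fun n S hS => M.exists_state_succ N hT hc hC hN n S hS)

end TreeModel

end Pool.Agent.Helper54
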