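import Mathlib

set_option autoImplicit false
set_option linter.unusedSectionVars false

open Filter Topology

namespace Pool.Agent.Helper54

/-- Tree axioms: predecessors of a node form a chain, well-foundedness, limit nodes are determined
by their predecessors, increasing sequences are bounded, infinitely many immediate successors. -/
structure TreeAx (T : Type) [PartialOrder T] [OrderBot T] : Prop where
  chain : ∀ {a b c : T}, a ≤ c → b ≤ c → a ≤ b ∨ b ≤ a
  wf : WellFounded ((· < ·) : T → T → Prop)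
  lim : ∀ {b t : T}, b ≠ ⊥ → (∀ r, r < b → ∃ s, r < s ∧ s ≤ b ∧ s ≤ t) → b ≤ t
  seq : ∀ s : ℕ → T, (∀ n, s n ≤ s (n + 1)) → ∃ b, ∀ n, s n ≤ b
  inf : ∀ t : T, {u | t ⋖ u}.Infinite

/-- A normed space modelled on the closed span of the indicators of the initial segments of the
tree in the space of bounded functions. -/
structure TreeModel (T : Type) [PartialOrder T] (X : Type) [NormedAddCommGroup X]
    [NormedSpace ℝ X] where
  ev : T → X →L[ℝ] ℝ
  e : T → X
  ev_e_le : ∀ {s t : T}, s ≤ t → ev s (e t) = 1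
  ev_e_not_le : ∀ {s t : T}, ¬ s ≤ t → ev s (e t) = 0
  norm_le : ∀ (x : X) (C : ℝ), 0 ≤ C → (∀ t, |ev t x| ≤ C) → ‖x‖ ≤ C
  ev_le : ∀ (x : X) (t : T), |ev t x| ≤ ‖x‖
  dense : ∀ x : X, x ∈ closure (Submodule.span ℝ (Set.range e) : Set X)

/-- An abstract exhaustion principle (Brezis-Browder). -/
theorem exhaustion {P : Type*} (R : P → P → Prop) (hrefl : ∀ p, R p p)
    (htrans : ∀ p q r, R p q → R q r → R p r)
    (hseq : ∀ s : ℕ → P, (∀ n, R (s n) (s (n + 1))) → ∃ u, ∀ n, R (s n) u)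
    (φ : P → ℝ) (hφ : ∀ p q, R p q → φ p ≤ φ q) (p : P) (B : ℝ) (hB : ∀ q, R p q → φ q ≤ B) :
    ∃ q, R p q ∧ ∀ r, R q r → φ r = φ q := by
  classical
  -- supremum of φ above q
  let S : P → ℝ := fun q => sSup (φ '' {r | R q r})
  have hbdd : ∀ q, R p q → BddAbove (φ '' {r | R q r}) := by
    intro q hq
    refine ⟨B, ?_⟩
    rintro _ ⟨r, hr, rfl⟩
    exact hB r (htrans _ _ _ hq hr)
  have hle : ∀ q, R p q → ∀ r, R q r → φ r ≤ S q := by
    intro q hq r hr
    exact le_csSup (hbdd q hq) ⟨r, hr, rfl⟩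
  have hstep : ∀ (n : ℕ) (q : {q : P // R p q}), ∃ q' : {q : P // R p q},
      R q.1 q'.1 ∧ S q.1 - 1 / ((n : ℝ) + 1) < φ q'.1 := by
    intro n q
    have hne : (φ '' {r | R q.1 r}).Nonempty := ⟨φ q.1, q.1, hrefl _, rfl⟩
    have hpos : (0 : ℝ) < 1 / ((n : ℝ) + 1) := by positivity
    obtain ⟨_, ⟨r, hr, rfl⟩, hlt⟩ := exists_lt_of_lt_csSup hne (sub_lt_self (S q.1) hpos)
    exact ⟨⟨r, htrans _ _ _ q.2 hr⟩, hr, hlt⟩
  choose g hg1 hg2 using hstep
  let s : ℕ → {q : P // R p q} := fun n => Nat.rec ⟨p, hrefl p⟩ (fun n q => g n q) n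
  have hs : ∀ n, s (n + 1) = g n (s n) := fun n => rfl
  obtain ⟨u, hu⟩ := hseq (fun n => (s n).1) (fun n => by
    show R (s n).1 (s (n + 1)).1
    rw [hs n]; exact hg1 n (s n))
  refine ⟨u, hu 0, ?_⟩
  intro r hr
  apply le_antisymm _ (hφ _ _ hr)
  apply le_of_forall_pos_le_add
  intro ε hε
  obtain ⟨n, hn⟩ := exists_nat_one_div_lt hε
  have h1 : φ r ≤ S (s n).1 := hle _ (s n).2 r (htrans _ _ _ (hu n) hr)
  have h2 : S (s n).1 - 1 / ((n : ℝ) + 1) < φ (s (n + 1)).1 := by
    rw [hs n]; exact hg2 n (s n)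
  have h3 : φ (s (n + 1)).1 ≤ φ u := hφ _ _ (hu (n + 1))
  linarith

/-- Dependent choice with an invariant and a step relation. -/
theorem dep_choice {α : Type*} (Inv : ℕ → α → Prop) (Rel : ℕ → α → α → Prop)
    (h0 : ∃ a, Inv 0 a) (hs : ∀ n a, Inv n a → ∃ b, Inv (n + 1) b ∧ Rel n a b) :
    ∃ f : ℕ → α, (∀ n, Inv n (f n)) ∧ ∀ n, Rel n (f n) (f (n + 1)) := by
  classical
  obtain ⟨a0, ha0⟩ := h0
  choose! g hg1 hg2 using hs
  let f : ℕ → α := fun n => Nat.rec a0 (fun n a => g n a) n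
  have hf : ∀ n, f (n + 1) = g n (f n) := fun n => rfl
  have hinv : ∀ n, Inv n (f n) := by
    intro n
    induction n with
    | zero => exact ha0
    | succ n ih => rw [hf]; exact hg1 n _ ih
  refine ⟨f, hinv, fun n => ?_⟩
  rw [hf]
  exact hg2 n _ (hinv n)

section Basic

variable {T : Type} [PartialOrder T] [OrderBot T] {X : Type} [NormedAddCommGroup X]
  [NormedSpace ℝ X] (M : TreeModel T X)

namespace TreeModel

/-- Vectors vanishing outside the initial segment of `t`. -/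
def SuppIn (x : X) (t : T) : Prop := ∀ s, ¬ s ≤ t → M.ev s x = 0

/-- Vectors vanishing outside the nodes strictly above `t`. -/
def Above (t : T) (y : X) : Prop := ∀ s, ¬ t < s → M.ev s y = 0

/-- Constant extension of `x` from `t` to `t'`. -/
def ext (x : X) (t t' : T) : X := x + M.ev t x • (M.e t' - M.e t)

theorem ext_add_smul (x y : X) (a : ℝ) (t t' : T) :
    M.ext (x + a • y) t t' = M.ext x t t' + a • M.ext y t t' := by
  simp only [ext, map_add, map_smul, smul_eq_mul]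
  module

theorem ext_self (x : X) (t : T) : M.ext x t t = x := by simp [ext]

theorem above_e_sub (hT : TreeAx T) {t t' : T} (h : t ≤ t') : M.Above t (M.e t' - M.e t) := by
  intro s hs
  rw [map_sub]
  by_cases h1 : s ≤ t
  · rw [M.ev_e_le h1, M.ev_e_le (h1.trans h), sub_self]
  · by_cases h2 : s ≤ t'
    · exfalso
      rcases hT.chain h2 h with h3 | h3
      · exact h1 h3
      · exact hs (lt_of_le_of_ne h3 (fun h4 => h1 h4.ge))
    · rw [M.ev_e_not_le h1, M.ev_e_not_le h2, sub_self]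

theorem Above.add {t : T} {x y : X} (hx : M.Above t x) (hy : M.Above t y) : M.Above t (x + y) := by
  intro s hs
  rw [map_add, hx s hs, hy s hs, add_zero]

theorem Above.smul {t : T} {x : X} (hx : M.Above t x) (a : ℝ) : M.Above t (a • x) := by
  intro s hs
  rw [map_smul, hx s hs, smul_zero]

theorem Above.mono {t t' : T} {x : X} (h : t ≤ t') (hx : M.Above t' x) : M.Above t x := by
  intro s hs
  exact hx s (fun h1 => hs (lt_of_le_of_lt h h1))

theorem above_zero (t : T) : M.Above t 0 := by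
  intro s _
  exact map_zero _

theorem ev_ext_self {x : X} {t : T} (hx : M.SuppIn x t) {t' : T} (h : t ≤ t') :
    M.ev t' (M.ext x t t') = M.ev t x := by
  by_cases h1 : t' ≤ t
  · have : t = t' := le_antisymm h h1
    subst this
    rw [ext_self]
  · simp only [ext, map_add, map_smul, map_sub, smul_eq_mul]
    rw [hx t' h1, M.ev_e_le le_rfl, M.ev_e_not_le h1]
    ring

theorem suppIn_ext {x : X} {t : T} (hx : M.SuppIn x t) {t' : T} (h : t ≤ t') :
    M.SuppIn (M.ext x t t') t' := by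
  intro s hs
  have h1 : ¬ s ≤ t := fun h1 => hs (h1.trans h)
  simp only [ext, map_add, map_smul, map_sub, smul_eq_mul]
  rw [hx s h1, M.ev_e_not_le hs, M.ev_e_not_le h1]
  ring

theorem ev_ext_le {x : X} {t t' s : T} (h : t ≤ t') (hs : s ≤ t) :
    M.ev s (M.ext x t t') = M.ev s x := by
  simp only [ext, map_add, map_smul, map_sub, smul_eq_mul]
  rw [M.ev_e_le hs, M.ev_e_le (hs.trans h)]
  ring

theorem ev_ext_mid {x : X} {t t' s : T} (hx : M.SuppIn x t) (hs : ¬ s ≤ t) (hs' : s ≤ t') :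
    M.ev s (M.ext x t t') = M.ev t x := by
  simp only [ext, map_add, map_smul, map_sub, smul_eq_mul]
  rw [hx s hs, M.ev_e_not_le hs, M.ev_e_le hs']
  ring

theorem ext_ext {x : X} {t t' t'' : T} (hx : M.SuppIn x t) (h : t ≤ t') :
    M.ext (M.ext x t t') t' t'' = M.ext x t t'' := by
  have h1 := M.ev_ext_self hx h
  unfold ext at h1 ⊢
  rw [h1]
  module

theorem norm_e_sub_le {t t' : T} (h : t ≤ t') : ‖M.e t' - M.e t‖ ≤ 1 := by
  apply M.norm_le _ _ zero_le_one
  intro s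
  rw [map_sub]
  by_cases h1 : s ≤ t
  · rw [M.ev_e_le h1, M.ev_e_le (h1.trans h)]; norm_num
  · by_cases h2 : s ≤ t'
    · rw [M.ev_e_not_le h1, M.ev_e_le h2]; norm_num
    · rw [M.ev_e_not_le h1, M.ev_e_not_le h2]; norm_num

theorem norm_sum_le_of_disjoint {ι : Type*} (F : Finset ι) (w : ι → X) (R : ℝ) (hR : 0 ≤ R)
    (hw : ∀ i ∈ F, ‖w i‖ ≤ R)
    (hd : ∀ s, ∀ i ∈ F, ∀ j ∈ F, M.ev s (w i) ≠ 0 → M.ev s (w j) ≠ 0 → i = j) :
    ‖∑ i ∈ F, w i‖ ≤ R := by
  classical
  apply M.norm_le _ _ hR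
  intro s
  rw [map_sum]
  by_cases h : ∃ i ∈ F, M.ev s (w i) ≠ 0
  · obtain ⟨i, hi, hne⟩ := h
    rw [Finset.sum_eq_single i]
    · exact (M.ev_le _ _).trans (hw i hi)
    · intro j hj hji
      by_contra hne'
      exact hji (hd s j hj i hi hne' hne)
    · intro h; exact absurd hi h
  · push Not at h
    rw [Finset.sum_eq_zero h, abs_zero]
    exact hR

end TreeModel

end Basic

end Pool.Agent.Helper54
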